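import Mathlib

/-! # Dividing a set of vectors into cells -/

namespace Pool.Agent.K6.H9.SV

open Finset

/-- **Cells.** -/
theorem card_cells {d : ℕ} {α : Type} (T : Finset α) (u : α → Fin d → ℝ) (I : Finset (Fin d))
    (X ρ M : ℝ) (hX : 0 ≤ X) (hρ : 0 < ρ) (hM0 : 0 ≤ M)
    (hT : ∀ p ∈ T, ∀ q ∈ T, ∀ i ∈ I, |u p i - u q i| ≤ X)
    (hM : ∀ T' ⊆ T, (∀ p ∈ T', ∀ q ∈ T', ∀ i ∈ I, |u p i - u q i| ≤ ρ) → (T'.card : ℝ) ≤ M) :
    (T.card : ℝ) ≤ (2 * (X / ρ + 1)) ^ I.card * M := by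
  classical
  have hb0 : 0 ≤ 2 * (X / ρ + 1) := by positivity
  rcases T.eq_empty_or_nonempty with hTe | ⟨p₀, hp₀⟩
  · rw [hTe, card_empty, Nat.cast_zero]
    positivity
  set cell : α → I → ℤ := fun p i => ⌊(u p i.1 - u p₀ i.1) / ρ⌋ with hcell
  have hfib : ∀ b ∈ T.image cell, (((T.filter fun p => cell p = b).card : ℕ) : ℝ) ≤ M := by
    intro b hb
    refine hM _ (filter_subset _ _) fun p hp q hq i hi => ?_
    have h1 : cell p ⟨i, hi⟩ = cell q ⟨i, hi⟩ := by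
      rw [(mem_filter.1 hp).2, (mem_filter.1 hq).2]
    have h2 := (Int.abs_sub_lt_one_of_floor_eq_floor h1).le
    rw [← sub_div, abs_div, abs_of_pos hρ, div_le_one hρ] at h2
    simpa using h2
  have himg : (T.image cell).card ≤ ∏ _i : I, (Finset.Icc ⌊-(X / ρ)⌋ ⌊X / ρ⌋).card := by
    rw [← Fintype.card_piFinset]
    refine card_le_card fun b hb => ?_
    obtain ⟨p, hp, rfl⟩ := mem_image.1 hb
    rw [Fintype.mem_piFinset]
    intro i
    have h1 := abs_le.1 (hT p hp p₀ hp₀ i.1 i.2)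
    rw [mem_Icc]
    refine ⟨Int.floor_le_floor ?_, Int.floor_le_floor ?_⟩
    · rw [← neg_div]
      exact div_le_div_of_nonneg_right h1.1 hρ.le
    · exact div_le_div_of_nonneg_right h1.2 hρ.le
  have hX' : 0 ≤ X / ρ := by positivity
  have hIcc : ((Finset.Icc ⌊-(X / ρ)⌋ ⌊X / ρ⌋).card : ℝ) ≤ 2 * (X / ρ + 1) := by
    rw [Int.card_Icc]
    have h1 : ⌊-(X / ρ)⌋ ≤ ⌊X / ρ⌋ := Int.floor_le_floor (by linarith)
    have h2 : ((⌊X / ρ⌋ + 1 - ⌊-(X / ρ)⌋).toNat : ℝ) = ((⌊X / ρ⌋ + 1 - ⌊-(X / ρ)⌋ : ℤ) : ℝ) := by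
      have h3 : ((⌊X / ρ⌋ + 1 - ⌊-(X / ρ)⌋).toNat : ℤ) = ⌊X / ρ⌋ + 1 - ⌊-(X / ρ)⌋ :=
        Int.toNat_of_nonneg (by omega)
      exact_mod_cast h3
    rw [h2]
    push_cast
    have h4 := Int.floor_le (X / ρ)
    have h5 := Int.lt_floor_add_one (-(X / ρ))
    linarith
  have hprod : ((T.image cell).card : ℝ) ≤ (2 * (X / ρ + 1)) ^ I.card := by
    have h1 : ((T.image cell).card : ℝ) ≤
        ((∏ _i : I, (Finset.Icc ⌊-(X / ρ)⌋ ⌊X / ρ⌋).card : ℕ) : ℝ) := by exact_mod_cast himg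
    refine h1.trans ?_
    rw [prod_const, card_univ, Fintype.card_coe]
    push_cast
    exact pow_le_pow_left₀ (Nat.cast_nonneg _) hIcc _
  rw [card_eq_sum_card_image cell T]
  push_cast
  calc ∑ b ∈ T.image cell, ((T.filter fun p => cell p = b).card : ℝ) ≤
      ∑ _b ∈ T.image cell, M := sum_le_sum hfib
    _ = (T.image cell).card * M := by rw [sum_const, nsmul_eq_mul]
    _ ≤ (2 * (X / ρ + 1)) ^ I.card * M := mul_le_mul_of_nonneg_right hprod hM0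

end Pool.Agent.K6.H9.SV
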