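import Mathlib
import Pool.Agent.N759.FV.Veron

/-! # Hilbert functions of finite sets of integer points -/

namespace Pool.Agent.K6.H9.SV

open Matrix H715R2 Finset
open Pool.Agent.N759.FV (Mon ex mo mo_injective exists_mo ex_injective sum_ex eval_homog)

/-- the number of monomials of degree `n` in `d` variables -/
lemma card_Mon (d n : ℕ) : Fintype.card (Mon d n) = (d + n - 1).choose n := by
  classical
  have h1 : Fintype.card (Mon d n) = (finsuppAntidiag (univ : Finset (Fin d)) n).card := by
    rw [← card_univ]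
    refine card_bij (fun a _ => mo a) ?_ ?_ ?_
    · intro a _
      rw [mem_finsuppAntidiag]
      exact ⟨sum_ex a, subset_univ _⟩
    · intro a _ b _ h
      exact mo_injective h
    · intro s hs
      rw [mem_finsuppAntidiag] at hs
      obtain ⟨a, ha⟩ := exists_mo s hs.1
      exact ⟨a, mem_univ _, ha⟩
  rw [h1, card_finsuppAntidiag_nat_eq_choose, card_univ, Fintype.card_fin]

lemma card_Mon_succ (e n : ℕ) : Fintype.card (Mon (e + 1) n) = (n + e).choose e := by
  rw [card_Mon, show e + 1 + n - 1 = n + e by omega, ← Nat.choose_symm_add]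

/-- the restriction of polynomials to a finite set of integer points -/
noncomputable def restr {d : ℕ} (S : Finset (Fin d → ℤ)) : MvPolynomial (Fin d) ℝ →ₗ[ℝ] (S → ℝ) :=
  LinearMap.pi fun p => (MvPolynomial.aeval fun i => ((p : Fin d → ℤ) i : ℝ)).toLinearMap

lemma restr_apply {d : ℕ} (S : Finset (Fin d → ℤ)) (P : MvPolynomial (Fin d) ℝ) (p : S) :
    restr S P p = MvPolynomial.eval (fun i => ((p : Fin d → ℤ) i : ℝ)) P := by
  simp only [restr, LinearMap.pi_apply, AlgHom.toLinearMap_apply]
  rw [MvPolynomial.aeval_def, MvPolynomial.eval, ]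
  rfl

/-- the Hilbert function: the dimension of the space of the restrictions to `S` of the forms of
degree `t` -/
noncomputable def hilb {d : ℕ} (t : ℕ) (S : Finset (Fin d → ℤ)) : ℕ :=
  Module.finrank ℝ ((MvPolynomial.homogeneousSubmodule (Fin d) ℝ t).map (restr S))

lemma hilb_mono {d : ℕ} (t : ℕ) {S S' : Finset (Fin d → ℤ)} (h : S ⊆ S') :
    hilb t S ≤ hilb t S' := by
  classical
  set ρ : (S' → ℝ) →ₗ[ℝ] (S → ℝ) := LinearMap.pi fun p : S => LinearMap.proj ⟨p.1, h p.2⟩ with hρ
  have h1 : (restr S) = ρ.comp (restr S') := by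
    apply LinearMap.ext
    intro P
    funext p
    rw [LinearMap.comp_apply, hρ, LinearMap.pi_apply, LinearMap.proj_apply, restr_apply,
      restr_apply]
  unfold hilb
  rw [h1, Submodule.map_comp]
  exact Submodule.finrank_map_le _ _

/-- a small Hilbert function gives relations between any `e + 1` linear forms -/
lemma exists_relation {d e t : ℕ} (g : Matrix (Fin d) (Fin d) ℝ) (S : Finset (Fin d → ℤ))
    (hS : hilb t S < (t + e).choose e) (J : Fin (e + 1) → Fin d) :
    ∃ h : Mon (e + 1) t → ℝ, h ≠ 0 ∧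
      ∀ p ∈ S, ∑ a, h a * ∏ i, (g *ᵥ iR p) (J i) ^ ex a i = 0 := by
  classical
  set Z : Mon (e + 1) t → MvPolynomial (Fin d) ℝ := fun a =>
    ∏ i, (∑ j, MvPolynomial.C (g (J i) j) * MvPolynomial.X j) ^ ex a i with hZ
  have hZh : ∀ a, Z a ∈ MvPolynomial.homogeneousSubmodule (Fin d) ℝ t := by
    intro a
    rw [MvPolynomial.mem_homogeneousSubmodule]
    have h1 := MvPolynomial.IsHomogeneous.prod univ
      (fun i => (∑ j, MvPolynomial.C (g (J i) j) * MvPolynomial.X j : MvPolynomial (Fin d) ℝ) ^ ex a i)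
      (fun i => ex a i) fun i _ => by
        have h2 : (∑ j, MvPolynomial.C (g (J i) j) * MvPolynomial.X j :
            MvPolynomial (Fin d) ℝ).IsHomogeneous 1 :=
          MvPolynomial.IsHomogeneous.sum _ _ _ fun j _ => MvPolynomial.isHomogeneous_C_mul_X _ _
        have h3 := h2.pow (ex a i)
        rwa [one_mul] at h3
    rwa [sum_ex a] at h1
  have hZe : ∀ a (p : Fin d → ℤ), MvPolynomial.eval (fun i => (p i : ℝ)) (Z a) =
      ∏ i, (g *ᵥ iR p) (J i) ^ ex a i := by
    intro a p
    rw [hZ, map_prod]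
    refine prod_congr rfl fun i _ => ?_
    rw [map_pow, map_sum]
    congr 1
    rw [mulVec, dotProduct]
    refine sum_congr rfl fun j _ => ?_
    rw [map_mul, MvPolynomial.eval_C, MvPolynomial.eval_X]
    rfl
  set Φ : (Mon (e + 1) t → ℝ) →ₗ[ℝ]
      ((MvPolynomial.homogeneousSubmodule (Fin d) ℝ t).map (restr S)) :=
    ∑ a, (LinearMap.proj a : (Mon (e + 1) t → ℝ) →ₗ[ℝ] ℝ).smulRight
      ⟨restr S (Z a), Submodule.mem_map_of_mem (hZh a)⟩ with hΦ
  have hker : LinearMap.ker Φ ≠ ⊥ := by
    intro h0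
    have h1 := LinearMap.finrank_le_finrank_of_injective (LinearMap.ker_eq_bot.1 h0)
    rw [Module.finrank_fintype_fun_eq_card, card_Mon_succ] at h1
    exact absurd h1 (not_le.2 hS)
  obtain ⟨h, hh, hh0⟩ := (Submodule.ne_bot_iff _).1 hker
  refine ⟨h, hh0, fun p hp => ?_⟩
  have h2 : (Φ h : S → ℝ) ⟨p, hp⟩ = 0 := by
    rw [LinearMap.mem_ker] at hh
    rw [hh]
    rfl
  rw [← h2, hΦ]
  simp only [LinearMap.sum_apply, LinearMap.smulRight_apply, LinearMap.proj_apply,
    AddSubmonoidClass.coe_finsetSum, Submodule.coe_smul, Finset.sum_apply, Pi.smul_apply,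
    smul_eq_mul]
  refine sum_congr rfl fun a _ => ?_
  rw [restr_apply, hZe]

/-- the vectors of the monomials at integer points, over the field `K` -/
noncomputable def vk (K : Type) [Field K] {d n : ℕ} (p : Fin d → ℤ) (a : Mon d n) : K :=
  ∏ i, (p i : K) ^ ex a i

/-- the same over the real numbers -/
noncomputable def vr {d n : ℕ} (p : Fin d → ℤ) (a : Mon d n) : ℝ := ∏ i, (p i : ℝ) ^ ex a i

lemma vk_map {K : Type} [Field K] [Algebra K ℝ] {d n : ℕ} (p : Fin d → ℤ) (a : Mon d n) :
    algebraMap K ℝ (vk K p a) = vr p a := by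
  simp [vk, vr]

/-- the Hilbert function is bounded by the rank over `K` of the vectors of monomials -/
lemma hilb_le (K : Type) [Field K] [Algebra K ℝ] {d n : ℕ} (S : Finset (Fin d → ℤ)) :
    hilb n S ≤ Module.finrank K
      (Submodule.span K (Set.range fun p : S => (vk K (n := n) p.1))) := by
  classical
  set A : Matrix S (Mon d n) ℝ := fun p a => vr p.1 a with hA
  -- the restricted forms are in the column space
  have h1 : (MvPolynomial.homogeneousSubmodule (Fin d) ℝ n).map (restr S) ≤
      LinearMap.range A.mulVecLin := by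
    rintro _ ⟨P, hP, rfl⟩
    refine ⟨fun a => MvPolynomial.coeff (mo a) P, ?_⟩
    funext p
    rw [restr_apply, eval_homog ((MvPolynomial.mem_homogeneousSubmodule _ _).1 hP),
      mulVecLin_apply, mulVec, dotProduct]
    exact sum_congr rfl fun a _ => mul_comm _ _
  have h2 : hilb n S ≤ A.rank := Submodule.finrank_mono h1
  rw [Matrix.rank_eq_finrank_span_row] at h2
  obtain ⟨κ, f, hf, hspan, hli⟩ := exists_linearIndependent' (K := ℝ) A.row
  have : Finite κ := Finite.of_injective f hf
  let hκ : Fintype κ := Fintype.ofFinite κ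
  rw [← hspan, finrank_span_eq_card hli] at h2
  have hliq : LinearIndependent K (fun k : κ => (vk K (n := n) (f k).1)) := by
    rw [Fintype.linearIndependent_iff] at hli ⊢
    intro c hc k
    have h3 := hli (fun k => algebraMap K ℝ (c k)) ?_ k
    · exact (map_eq_zero (algebraMap K ℝ)).1 h3
    · funext a
      have h4 := congrFun hc a
      simp only [Finset.sum_apply, Pi.smul_apply, smul_eq_mul, Pi.zero_apply] at h4 ⊢
      have h5 : algebraMap K ℝ (∑ k, c k * vk K (n := n) (f k).1 a) = 0 := by rw [h4, map_zero]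
      rw [← h5, map_sum]
      refine sum_congr rfl fun k _ => ?_
      rw [map_mul, vk_map]
      rfl
  have h7 : Fintype.card κ ≤ Module.finrank K
      (Submodule.span K (Set.range fun k : κ => (vk K (n := n) (f k).1))) := by
    rw [finrank_span_eq_card hliq]
  refine h2.trans (h7.trans (Submodule.finrank_mono (Submodule.span_mono ?_)))
  rintro _ ⟨k, rfl⟩
  exact ⟨f k, rfl⟩

/-- **The rank of the coefficients over a field.** -/
lemma rank_coeffs (K : Type) [Field K] [Algebra K ℝ] {d n : ℕ} (S : Finset (Fin d → ℤ))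
    (P : MvPolynomial (Fin d) ℝ) (hP : P.IsHomogeneous n) (W : Submodule K ℝ)
    (hS : ∀ p ∈ S, MvPolynomial.eval (fun i => (p i : ℝ)) P ∈ W) :
    Module.finrank K (Submodule.span K (Set.range fun m : Fin d →₀ ℕ =>
      W.mkQ (MvPolynomial.coeff m P))) + hilb n S ≤ (d + n - 1).choose n := by
  classical
  set Ψ : (Mon d n → K) →ₗ[K] (ℝ ⧸ W) := ∑ a, (LinearMap.proj a : (Mon d n → K) →ₗ[K] K).smulRight
    (W.mkQ (MvPolynomial.coeff (mo a) P)) with hΨ
  have hΨa : ∀ w, Ψ w = ∑ a, w a • W.mkQ (MvPolynomial.coeff (mo a) P) := by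
    intro w
    rw [hΨ]
    simp only [LinearMap.sum_apply, LinearMap.smulRight_apply, LinearMap.proj_apply]
  have h1 : Submodule.span K (Set.range fun p : S => (vk K (n := n) p.1)) ≤ LinearMap.ker Ψ := by
    rw [Submodule.span_le]
    rintro _ ⟨p, rfl⟩
    rw [SetLike.mem_coe, LinearMap.mem_ker, hΨa]
    have h2 : ∑ a, vk K (n := n) p.1 a • W.mkQ (MvPolynomial.coeff (mo a) P) =
        W.mkQ (MvPolynomial.eval (fun i => ((p : Fin d → ℤ) i : ℝ)) P) := by
      rw [eval_homog hP, map_sum]
      refine sum_congr rfl fun a _ => ?_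
      rw [← map_smul]
      congr 1
      rw [Algebra.smul_def, vk_map, mul_comm]
      rfl
    rw [h2]
    exact (Submodule.Quotient.mk_eq_zero W).2 (hS p.1 p.2)
  have h3 : Submodule.span K (Set.range fun m : Fin d →₀ ℕ =>
      W.mkQ (MvPolynomial.coeff m P)) ≤ LinearMap.range Ψ := by
    rw [Submodule.span_le]
    rintro _ ⟨m, rfl⟩
    by_cases hm : MvPolynomial.coeff m P = 0
    · simp only [hm, map_zero]
      exact Submodule.zero_mem _
    · have h4 := hP hm
      have h5 : ∑ i, m i = n := by
        rw [← h4, Finsupp.weight_apply, Finsupp.sum_fintype]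
        · simp
        · simp
      obtain ⟨a, rfl⟩ := exists_mo m h5
      refine ⟨Pi.single a 1, ?_⟩
      rw [hΨa, sum_eq_single a]
      · rw [Pi.single_eq_same, one_smul]
      · intro b _ hb
        rw [Pi.single_eq_of_ne hb, zero_smul]
      · intro h
        exact absurd (mem_univ _) h
  have h6 := LinearMap.finrank_range_add_finrank_ker Ψ
  rw [Module.finrank_fintype_fun_eq_card, card_Mon] at h6
  have h7 := Submodule.finrank_mono h3
  have h8 := (hilb_le K (n := n) S).trans (Submodule.finrank_mono h1)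
  omega

end Pool.Agent.K6.H9.SV
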