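import Mathlib

/-! # Linear algebra and counting for vectors of logarithms -/

namespace Pool.Agent.K6.H9.SV

open Finset

/-- a basis of the dual among the coordinates -/
lemma exists_coord_basis {d : ℕ} (N : Submodule ℝ (Fin d → ℝ)) :
    ∃ (κ : Type) (_ : Fintype κ) (a : κ → Fin d), Function.Injective a ∧
      LinearIndependent ℝ (fun k => ((LinearMap.proj (a k) : (Fin d → ℝ) →ₗ[ℝ] ℝ).comp
        N.subtype)) ∧
      (∀ v ∈ N, (∀ k, v (a k) = 0) → v = 0) ∧ Fintype.card κ ≤ Module.finrank ℝ N ∧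
      Module.finrank ℝ N ≤ Fintype.card κ := by
  classical
  obtain ⟨κ, a, ha, hspan, hli⟩ := exists_linearIndependent' (K := ℝ)
    (fun i : Fin d => ((LinearMap.proj i : (Fin d → ℝ) →ₗ[ℝ] ℝ).comp N.subtype))
  have : Finite κ := Finite.of_injective a ha
  let hf : Fintype κ := Fintype.ofFinite κ
  have hv : ∀ v ∈ N, (∀ k, v (a k) = 0) → v = 0 := by
    intro v hv h0
    have h1 : ∀ φ ∈ Submodule.span ℝ (Set.range (fun i : Fin d =>
        ((LinearMap.proj i : (Fin d → ℝ) →ₗ[ℝ] ℝ).comp N.subtype))), φ ⟨v, hv⟩ = 0 := by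
      rw [← hspan]
      intro φ hφ
      induction hφ using Submodule.span_induction with
      | mem x hx =>
        obtain ⟨k, rfl⟩ := hx
        exact h0 k
      | zero => rfl
      | add x y _ _ hx hy => rw [LinearMap.add_apply, hx, hy, add_zero]
      | smul c x _ hx => rw [LinearMap.smul_apply, hx, smul_zero]
    funext i
    exact h1 _ (Submodule.subset_span ⟨i, rfl⟩)
  refine ⟨κ, hf, a, ha, hli, hv, ?_, ?_⟩
  · have h2 := hli.fintype_card_le_finrank
    rwa [Subspace.dual_finrank_eq] at h2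
  · set Φ : N →ₗ[ℝ] (κ → ℝ) := LinearMap.pi fun k =>
      ((LinearMap.proj (a k) : (Fin d → ℝ) →ₗ[ℝ] ℝ).comp N.subtype) with hΦ
    have hinj : Function.Injective Φ := by
      rw [injective_iff_map_eq_zero]
      rintro ⟨v, hvN⟩ h0
      exact Subtype.ext (hv v hvN fun k => congrFun h0 k)
    have h3 := LinearMap.finrank_le_finrank_of_injective hinj
    rwa [Module.finrank_fintype_fun_eq_card] at h3

/-- few coordinates suffice -/
lemma exists_coords {d k : ℕ} (N : Submodule ℝ (Fin d → ℝ)) (hN : Module.finrank ℝ N ≤ k) :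
    ∃ I : Finset (Fin d), I.card ≤ k ∧ ∀ v ∈ N, (∀ i ∈ I, v i = 0) → v = 0 := by
  classical
  obtain ⟨κ, hf, a, ha, -, hv, hc, -⟩ := exists_coord_basis N
  refine ⟨univ.image a, ?_, fun v hvN h0 => hv v hvN fun k => h0 _ (mem_image_of_mem _ (mem_univ _))⟩
  exact (card_image_le.trans (le_of_eq card_univ)).trans (hc.trans hN)

/-- a space on which any `e + 1` coordinates are dependent has dimension at most `e` -/
lemma finrank_le_of_relations {d e : ℕ} (K : Submodule ℝ (Fin d → ℝ))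
    (h : ∀ J : Fin (e + 1) → Fin d, Function.Injective J → ∃ c : Fin (e + 1) → ℝ, c ≠ 0 ∧
      ∀ v ∈ K, ∑ i, c i * v (J i) = 0) : Module.finrank ℝ K ≤ e := by
  classical
  obtain ⟨κ, hf, a, ha, hli, hv, -, hc⟩ := exists_coord_basis K
  by_contra hcon
  have h1 : Fintype.card (Fin (e + 1)) ≤ Fintype.card κ := by
    rw [Fintype.card_fin]
    omega
  obtain ⟨ι⟩ := Function.Embedding.nonempty_of_card_le h1
  obtain ⟨c, hc0, hcK⟩ := h (fun i => a (ι i)) (ha.comp ι.injective)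
  have h2 := hli.comp ι ι.injective
  rw [Fintype.linearIndependent_iff] at h2
  apply hc0
  funext i
  refine h2 c ?_ i
  ext v
  have h3 := hcK v.1 v.2
  simpa [LinearMap.sum_apply] using h3

/-- adding one equation which does not hold identically -/
lemma finrank_inf_lt {d : ℕ} (K : Submodule ℝ (Fin d → ℝ)) (φ : (Fin d → ℝ) →ₗ[ℝ] ℝ)
    (v : Fin d → ℝ) (hv : v ∈ K) (hφ : φ v ≠ 0) :
    Module.finrank ℝ (K ⊓ LinearMap.ker φ : Submodule ℝ (Fin d → ℝ)) < Module.finrank ℝ K := by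
  refine Submodule.finrank_lt_finrank_of_lt (lt_of_le_of_ne inf_le_left fun h0 => hφ ?_)
  rw [← h0] at hv
  exact hv.2

/-- **Counting vectors near a subspace.** -/
theorem cover_card {d k : ℕ} {μ : Type} [Fintype μ] (L : (Fin d → ℝ) →ₗ[ℝ] (μ → ℝ))
    (hL : Module.finrank ℝ (LinearMap.ker L) ≤ k) (B : ℝ) :
    ∃ R : ℝ, 0 ≤ R ∧ ∀ (α : Type) (S : Finset α) (u : α → Fin d → ℝ) (X : ℝ), 1 ≤ X →
      (∀ p ∈ S, ∀ i, |u p i| ≤ X) → (∀ p ∈ S, ∀ q ∈ S, ∀ j, |L (u q - u p) j| ≤ B) →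
      ∀ M : ℕ, (∀ p ∈ S, ∀ T ⊆ S, (∀ q ∈ T, ∀ i, |u q i - u p i| ≤ R) → T.card ≤ M) →
      (S.card : ℝ) ≤ M * (4 * X) ^ k := by
  classical
  obtain ⟨I, hI, hIv⟩ := exists_coords (LinearMap.ker L) hL
  set Φ : (Fin d → ℝ) →ₗ[ℝ] ((μ → ℝ) × (I → ℝ)) :=
    L.prod (LinearMap.pi fun i : I => LinearMap.proj i.1) with hΦ
  have hker : LinearMap.ker Φ = ⊥ := by
    rw [LinearMap.ker_eq_bot']
    intro v hv
    have h1 : L v = 0 := congrArg Prod.fst hv
    have h2 : (fun i : I => v i.1) = 0 := congrArg Prod.snd hv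
    exact hIv v h1 fun i hi => congrFun h2 ⟨i, hi⟩
  obtain ⟨K, -, hK⟩ := LinearMap.exists_antilipschitzWith Φ hker
  refine ⟨K * max |B| 1, by positivity, ?_⟩
  intro α S u X hX huX huL M hM
  -- the cells
  set cell : α → I → ℤ := fun p i => ⌊u p i.1⌋ with hcell
  have hfib : S.card ≤ M * (S.image cell).card := by
    refine card_le_mul_card_image _ _ fun b hb => ?_
    obtain ⟨p, hp, rfl⟩ := mem_image.1 hb
    refine hM p hp _ (filter_subset _ _) fun q hq i => ?_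
    obtain ⟨hqS, hqc⟩ := mem_filter.1 hq
    have h1 := hK.le_mul_dist (u q) (u p)
    rw [dist_eq_norm, dist_eq_norm, ← map_sub] at h1
    have h2 : ‖Φ (u q - u p)‖ ≤ max |B| 1 := by
      rw [Prod.norm_def]
      refine max_le ((?_ : _ ≤ |B|).trans (le_max_left _ _))
        ((?_ : _ ≤ (1 : ℝ)).trans (le_max_right _ _))
      · exact (pi_norm_le_iff_of_nonneg (abs_nonneg B)).2 fun j =>
          (huL p hp q hqS j).trans (le_abs_self B)
      · refine (pi_norm_le_iff_of_nonneg zero_le_one).2 fun i => ?_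
        have h3 : ⌊u q i.1⌋ = ⌊u p i.1⌋ := congrFun hqc i
        have h4 := Int.abs_sub_lt_one_of_floor_eq_floor h3
        exact h4.le
    have h3 : |u q i - u p i| ≤ ‖u q - u p‖ := by
      have := norm_le_pi_norm (u q - u p) i
      simpa using this
    exact h3.trans (h1.trans (mul_le_mul_of_nonneg_left h2 K.2))
  have himg : (S.image cell).card ≤ ∏ _i : I, (Finset.Icc ⌊-X⌋ ⌊X⌋).card := by
    rw [← Fintype.card_piFinset]
    refine card_le_card fun b hb => ?_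
    obtain ⟨p, hp, rfl⟩ := mem_image.1 hb
    rw [Fintype.mem_piFinset]
    intro i
    have h1 := abs_le.1 (huX p hp i.1)
    rw [mem_Icc]
    exact ⟨Int.floor_le_floor h1.1, Int.floor_le_floor h1.2⟩
  have hIcc : ((Finset.Icc ⌊-X⌋ ⌊X⌋).card : ℝ) ≤ 4 * X := by
    rw [Int.card_Icc]
    have h1 : ⌊-X⌋ ≤ ⌊X⌋ := Int.floor_le_floor (by linarith)
    have h2 : ((⌊X⌋ + 1 - ⌊-X⌋).toNat : ℝ) = ((⌊X⌋ + 1 - ⌊-X⌋ : ℤ) : ℝ) := by
      have h3 : ((⌊X⌋ + 1 - ⌊-X⌋).toNat : ℤ) = ⌊X⌋ + 1 - ⌊-X⌋ := Int.toNat_of_nonneg (by omega)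
      exact_mod_cast h3
    rw [h2]
    push_cast
    have h4 := Int.floor_le X
    have h5 := Int.lt_floor_add_one (-X)
    linarith
  have h4X : 1 ≤ 4 * X := by linarith
  have hprod : ((∏ _i : I, (Finset.Icc ⌊-X⌋ ⌊X⌋).card : ℕ) : ℝ) ≤ (4 * X) ^ k := by
    rw [prod_const, card_univ, Fintype.card_coe]
    push_cast
    calc ((Finset.Icc ⌊-X⌋ ⌊X⌋).card : ℝ) ^ I.card ≤ (4 * X) ^ I.card :=
          pow_le_pow_left₀ (Nat.cast_nonneg _) hIcc _
      _ ≤ (4 * X) ^ k := pow_le_pow_right₀ h4X hI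
  calc (S.card : ℝ) ≤ ((M * (S.image cell).card : ℕ) : ℝ) := by exact_mod_cast hfib
    _ = M * ((S.image cell).card : ℝ) := by push_cast; ring
    _ ≤ M * (4 * X) ^ k := by
        refine mul_le_mul_of_nonneg_left ?_ (Nat.cast_nonneg _)
        exact le_trans (by exact_mod_cast himg) hprod

end Pool.Agent.K6.H9.SV
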