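import Mathlib

/-! # Two dominant terms of a nearly vanishing sum -/

namespace Pool.Agent.K6.H9.SV

open Finset

/-- if a sum is small compared with one of its terms, then two of its terms are comparable -/
theorem two_terms {ι : Type*} [Fintype ι] (h X : ι → ℝ) (hh : h ≠ 0) (hX : ∀ a, X a ≠ 0)
    {θ : ℝ} (hθ0 : 0 ≤ θ) (hθ : θ < 1) (hs : ∃ b, |∑ a, h a * X a| ≤ θ * |h b * X b|) :
    ∃ a b, a ≠ b ∧ h a ≠ 0 ∧ h b ≠ 0 ∧
      |h a * X a| ≤ Fintype.card ι / (1 - θ) * |h b * X b| ∧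
      |h b * X b| ≤ Fintype.card ι / (1 - θ) * |h a * X a| := by
  classical
  obtain ⟨a₀, ha₀⟩ := Function.ne_iff.1 hh
  have : Nonempty ι := ⟨a₀⟩
  obtain ⟨a, -, ha⟩ := exists_max_image (univ : Finset ι) (fun a => |h a * X a|) ⟨a₀, mem_univ _⟩
  have hpos : 0 < |h a * X a| :=
    lt_of_lt_of_le (abs_pos.2 (mul_ne_zero ha₀ (hX a₀))) (ha a₀ (mem_univ _))
  have hM1 : (1 : ℝ) ≤ Fintype.card ι := by exact_mod_cast Fintype.card_pos
  have h1θ : 0 < 1 - θ := by linarith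
  obtain ⟨b₁, hb₁⟩ := hs
  have hsum : |∑ a, h a * X a| ≤ θ * |h a * X a| :=
    hb₁.trans (mul_le_mul_of_nonneg_left (ha b₁ (mem_univ _)) hθ0)
  have hex : ∃ b, b ≠ a ∧ |h a * X a| ≤ Fintype.card ι / (1 - θ) * |h b * X b| := by
    by_contra hcon
    push Not at hcon
    have h1 : h a * X a = (∑ b, h b * X b) - ∑ b ∈ univ.erase a, h b * X b := by
      rw [← add_sum_erase univ (fun b => h b * X b) (mem_univ a)]
      ring
    have h2 : |h a * X a| ≤ θ * |h a * X a| + ∑ b ∈ univ.erase a, |h b * X b| := by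
      calc |h a * X a| = |(∑ b, h b * X b) - ∑ b ∈ univ.erase a, h b * X b| := by rw [← h1]
        _ ≤ |∑ b, h b * X b| + |∑ b ∈ univ.erase a, h b * X b| := abs_sub _ _
        _ ≤ _ := add_le_add hsum (abs_sum_le_sum_abs _ _)
    have h3 : ∑ b ∈ univ.erase a, ((Fintype.card ι : ℝ) / (1 - θ)) * |h b * X b| ≤
        ∑ _b ∈ univ.erase a, |h a * X a| :=
      sum_le_sum fun b hb => (hcon b (ne_of_mem_erase hb)).le
    rw [sum_const, card_erase_of_mem (mem_univ a), card_univ, nsmul_eq_mul,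
      Nat.cast_sub Fintype.card_pos, ← mul_sum] at h3
    have h4 : (1 - θ) * |h a * X a| ≤ ∑ b ∈ univ.erase a, |h b * X b| := by linarith
    have h5 : (Fintype.card ι : ℝ) * |h a * X a| ≤
        ((Fintype.card ι : ℝ) / (1 - θ)) * ∑ b ∈ univ.erase a, |h b * X b| := by
      have h6 : (Fintype.card ι : ℝ) * |h a * X a| =
          ((Fintype.card ι : ℝ) / (1 - θ)) * ((1 - θ) * |h a * X a|) := by
        field_simp
      rw [h6]
      exact mul_le_mul_of_nonneg_left h4 (by positivity)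
    push_cast at h3
    nlinarith
  obtain ⟨b, hba, hb⟩ := hex
  have hbpos : 0 < |h b * X b| := by
    by_contra hcon
    have : |h b * X b| = 0 := le_antisymm (not_lt.1 hcon) (abs_nonneg _)
    rw [this, mul_zero] at hb
    linarith
  have hc1 : 1 ≤ (Fintype.card ι : ℝ) / (1 - θ) := by
    rw [le_div_iff₀ h1θ]
    linarith
  refine ⟨a, b, hba.symm, ?_, ?_, hb, ?_⟩
  · intro h0
    rw [h0, zero_mul, abs_zero] at hpos
    exact lt_irrefl _ hpos
  · intro h0
    rw [h0, zero_mul, abs_zero] at hbpos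
    exact lt_irrefl _ hbpos
  · refine (ha b (mem_univ _)).trans ?_
    exact le_mul_of_one_le_left hpos.le hc1

/-- the logarithms at a point at which a form is small compared with one of its terms -/
theorem near_hyperplane {m : ℕ} {ι : Type*} [Fintype ι] (e : ι → Fin m → ℕ)
    (h : ι → ℝ) (hh : h ≠ 0) (y : Fin m → ℝ) (hy : ∀ i, y i ≠ 0) {θ : ℝ}
    (hθ0 : 0 ≤ θ) (hθ : θ < 1)
    (hs : ∃ b, |∑ a, h a * ∏ i, y i ^ e a i| ≤ θ * |h b * ∏ i, y i ^ e b i|) :
    ∃ a b, a ≠ b ∧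
      |∑ i, ((e a i : ℝ) - e b i) * Real.log |y i| + (Real.log |h a| - Real.log |h b|)| ≤
        Real.log (Fintype.card ι / (1 - θ)) := by
  classical
  have hX : ∀ a, ∏ i, y i ^ e a i ≠ 0 := fun a => prod_ne_zero_iff.2 fun i _ => pow_ne_zero _ (hy i)
  obtain ⟨a, b, hab, ha0, hb0, h1, h2⟩ :=
    two_terms h (fun a => ∏ i, y i ^ e a i) hh hX hθ0 hθ hs
  have hlog : ∀ a, h a ≠ 0 → Real.log |h a * ∏ i, y i ^ e a i| =
      Real.log |h a| + ∑ i, (e a i : ℝ) * Real.log |y i| := by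
    intro a ha
    rw [abs_mul, Real.log_mul (abs_ne_zero.2 ha) (abs_ne_zero.2 (hX a)), abs_prod,
      Real.log_prod fun i _ => abs_ne_zero.2 (pow_ne_zero _ (hy i))]
    congr 1
    refine sum_congr rfl fun i _ => ?_
    rw [abs_pow, Real.log_pow]
  have hM : (0 : ℝ) < Fintype.card ι / (1 - θ) := by
    have : Nonempty ι := ⟨a⟩
    have h3 : (0 : ℝ) < Fintype.card ι := by exact_mod_cast Fintype.card_pos
    exact div_pos h3 (by linarith)
  have hapos : 0 < |h a * ∏ i, y i ^ e a i| := abs_pos.2 (mul_ne_zero ha0 (hX a))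
  have hbpos : 0 < |h b * ∏ i, y i ^ e b i| := abs_pos.2 (mul_ne_zero hb0 (hX b))
  have h3 := Real.log_le_log hapos h1
  have h4 := Real.log_le_log hbpos h2
  rw [Real.log_mul hM.ne' hbpos.ne', hlog a ha0, hlog b hb0] at h3
  rw [Real.log_mul hM.ne' hapos.ne', hlog a ha0, hlog b hb0] at h4
  refine ⟨a, b, hab, ?_⟩
  have h6 : ∑ i, ((e a i : ℝ) - e b i) * Real.log |y i| =
      ∑ i, (e a i : ℝ) * Real.log |y i| - ∑ i, (e b i : ℝ) * Real.log |y i| := by
    rw [← sum_sub_distrib]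
    exact sum_congr rfl fun i _ => by ring
  rw [h6, abs_le]
  constructor <;> linarith

end Pool.Agent.K6.H9.SV
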