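import Mathlib
import Pool.Agent.N759.FV.Mult
import Pool.Agent.K6.H9.SV.Lin
import Pool.Agent.K6.H9.SV.Trop
import Pool.Agent.K6.H9.SV.Hilb

/-! # Small points at which any `e + 1` of the linear forms are nearly related -/

namespace Pool.Agent.K6.H9.SV

open Filter Topology Matrix H715R2
open Pool.Agent.W777.FV Pool.Agent.N759.UC Finset
open Pool.Agent.N759.FV (Mon ex ex_injective sum_ex card_near)

/-- the injective families of `e + 1` indices -/
abbrev Inj (d e : ℕ) : Type := {J : Fin (e + 1) → Fin d // Function.Injective J}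

/-- the difference of two exponents, at the indices `J` -/
noncomputable def rel {d e t : ℕ} (J : Fin (e + 1) → Fin d) (a b : Mon (e + 1) t) :
    (Fin d → ℝ) →ₗ[ℝ] ℝ :=
  ∑ i, ((ex a i : ℝ) - ex b i) • LinearMap.proj (J i)

lemma rel_apply {d e t : ℕ} (J : Fin (e + 1) → Fin d) (a b : Mon (e + 1) t) (v : Fin d → ℝ) :
    rel J a b v = ∑ i, ((ex a i : ℝ) - ex b i) * v (J i) := by
  simp [rel, LinearMap.sum_apply]

/-- the sum of the coordinates -/
noncomputable def tot {d : ℕ} : (Fin d → ℝ) →ₗ[ℝ] ℝ := ∑ i, LinearMap.proj i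

lemma tot_apply {d : ℕ} (v : Fin d → ℝ) : tot v = ∑ i, v i := by
  simp [tot, LinearMap.sum_apply]

/-- the relations of a pattern, and the sum of the coordinates -/
noncomputable def patL {d e t : ℕ} (π : Inj d e → Mon (e + 1) t × Mon (e + 1) t) :
    (Fin d → ℝ) →ₗ[ℝ] (Option (Inj d e) → ℝ) :=
  LinearMap.pi fun o => o.elim tot fun J => rel J.1 (π J).1 (π J).2

/-- the dimension of the space of a pattern -/
lemma finrank_patL {d e t : ℕ} (hd : 0 < d) (π : Inj d e → Mon (e + 1) t × Mon (e + 1) t)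
    (hπ : ∀ J, (π J).1 ≠ (π J).2) : Module.finrank ℝ (LinearMap.ker (patL π)) ≤ e - 1 := by
  classical
  set K : Submodule ℝ (Fin d → ℝ) := LinearMap.ker (LinearMap.pi fun J : Inj d e =>
    rel J.1 (π J).1 (π J).2) with hK
  have hmemK : ∀ v, v ∈ K ↔ ∀ J : Inj d e, ∑ i, ((ex (π J).1 i : ℝ) - ex (π J).2 i) * v (J.1 i) = 0 := by
    intro v
    rw [hK, LinearMap.mem_ker]
    constructor
    · intro h J
      rw [← rel_apply]
      exact congrFun h J
    · intro h
      funext J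
      have := h J
      rw [← rel_apply] at this
      exact this
  have hKe : Module.finrank ℝ K ≤ e := by
    refine finrank_le_of_relations K fun J hJ => ?_
    refine ⟨fun i => (ex (π ⟨J, hJ⟩).1 i : ℝ) - ex (π ⟨J, hJ⟩).2 i, ?_, fun v hv =>
      (hmemK v).1 hv ⟨J, hJ⟩⟩
    intro h0
    apply hπ ⟨J, hJ⟩
    apply ex_injective
    funext i
    have h1 := congrFun h0 i
    simp only [Pi.zero_apply, sub_eq_zero] at h1
    exact_mod_cast h1
  have hone : (fun _ => 1 : Fin d → ℝ) ∈ K := by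
    rw [hmemK]
    intro J
    have h1 : ∑ i, (ex (π J).1 i : ℝ) = t := by exact_mod_cast sum_ex (π J).1
    have h2 : ∑ i, (ex (π J).2 i : ℝ) = t := by exact_mod_cast sum_ex (π J).2
    simp only [mul_one]
    rw [sum_sub_distrib, h1, h2, sub_self]
  have htot : tot (fun _ => 1 : Fin d → ℝ) ≠ 0 := by
    rw [tot_apply, sum_const, card_univ, Fintype.card_fin, nsmul_eq_mul, mul_one]
    exact_mod_cast hd.ne'
  have hlt := finrank_inf_lt K tot _ hone htot
  have heq : LinearMap.ker (patL π) ≤ K ⊓ LinearMap.ker tot := by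
    intro v hv
    rw [LinearMap.mem_ker] at hv
    refine ⟨?_, ?_⟩
    · rw [SetLike.mem_coe, hK, LinearMap.mem_ker]
      funext J
      exact congrFun hv (some J)
    · exact congrFun hv none
  have hle := Submodule.finrank_mono heq
  omega

/-- **Small points at which any `e + 1` of the linear forms are nearly related.** -/
theorem small_points_core {d e : ℕ} (hd : 0 < d) (t : ℕ) {V ν Λ θ : ℝ} (hV : 0 < V)
    (hν : 0 < ν) (hθ0 : 0 ≤ θ) (hθ : θ < 1) :
    ∃ C : ℝ, 0 < C ∧ ∀ g : Matrix (Fin d) (Fin d) ℝ, |g.det| = V → HasNu g ν →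
      ∀ x : ℝ, 1 ≤ x → ∀ h : (Fin (e + 1) → Fin d) → Mon (e + 1) t → ℝ,
      (∀ J, Function.Injective J → h J ≠ 0) →
      ∀ S : Finset (Fin d → ℤ), (∀ p ∈ S, p ≠ 0 ∧ |FF g (iR p)| ≤ Λ ∧
        (∀ i, |(g *ᵥ iR p) i| ≤ Real.exp x) ∧
        ∀ J, Function.Injective J → ∃ b, |∑ a, h J a * ∏ i, (g *ᵥ iR p) (J i) ^ ex a i| ≤
          θ * |h J b * ∏ i, (g *ᵥ iR p) (J i) ^ ex b i|) →
      (S.card : ℝ) ≤ C * x ^ (e - 1) := by
  classical
  set lM : ℝ := Real.log (Fintype.card (Mon (e + 1) t) / (1 - θ)) with hlM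
  set B₀ : ℝ := |Real.log ν| + |Real.log Λ| with hB₀
  set B : ℝ := 2 * |lM| + B₀ with hB
  have hcov : ∀ π : Inj d e → Mon (e + 1) t × Mon (e + 1) t, ∃ R : ℝ,
      (∀ J, (π J).1 ≠ (π J).2) → 0 ≤ R ∧ ∀ (S : Finset (Fin d → ℤ))
      (u : (Fin d → ℤ) → Fin d → ℝ) (X : ℝ), 1 ≤ X →
      (∀ p ∈ S, ∀ i, |u p i| ≤ X) → (∀ p ∈ S, ∀ q ∈ S, ∀ j, |patL π (u q - u p) j| ≤ B) →
      ∀ M : ℕ, (∀ p ∈ S, ∀ T ⊆ S, (∀ q ∈ T, ∀ i, |u q i - u p i| ≤ R) → T.card ≤ M) →
      (S.card : ℝ) ≤ M * (4 * X) ^ (e - 1) := by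
    intro π
    by_cases hπ : ∀ J, (π J).1 ≠ (π J).2
    · obtain ⟨R, hR0, hR⟩ := cover_card (patL π) (finrank_patL hd π hπ) B
      exact ⟨R, fun _ => ⟨hR0, hR (Fin d → ℤ)⟩⟩
    · exact ⟨0, fun h => absurd h hπ⟩
  choose R hR using hcov
  have hnear : ∀ π : Inj d e → Mon (e + 1) t × Mon (e + 1) t, ∃ C₁ : ℕ,
      ∀ g : Matrix (Fin d) (Fin d) ℝ, |g.det| = V → HasNu g ν →
      ∀ S : Finset (Fin d → ℤ), (∀ p ∈ S, ∀ i, |(g *ᵥ iR p) i| ≤ Real.exp (R π + B₀)) →
        S.card ≤ C₁ := fun π => card_near hd hV hν _ (Real.exp_pos _).le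
  choose C₁ hC₁ using hnear
  set X₀ : ℝ := 4 * (d + |Real.log ν|) with hX₀
  set C : ℝ := ∑ π : Inj d e → Mon (e + 1) t × Mon (e + 1) t, C₁ π * X₀ ^ (e - 1) with hC
  have hC0 : 0 ≤ C := Finset.sum_nonneg fun _ _ => by positivity
  refine ⟨C + 1, by linarith, fun g hgV hnu x hx h hh S hS => ?_⟩
  have hx0 : 0 ≤ x := by linarith
  have hd1 : (1 : ℝ) ≤ d := by exact_mod_cast hd
  have hFν : ∀ p ∈ S, ν ≤ |FF g (iR p)| := fun p hp => hnu p (hS p hp).1
  have hFpos : ∀ p ∈ S, 0 < |FF g (iR p)| := fun p hp => hν.trans_le (hFν p hp)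
  set y : (Fin d → ℤ) → Fin d → ℝ := fun p => g *ᵥ iR p with hy
  have hyprod : ∀ p ∈ S, ∏ i, |y p i| = |FF g (iR p)| := by
    intro p hp
    rw [FF_eq, Finset.abs_prod]
  have hy0 : ∀ p ∈ S, ∀ i, y p i ≠ 0 := by
    intro p hp i h0
    have h1 := hyprod p hp
    rw [Finset.prod_eq_zero (Finset.mem_univ i) (by rw [h0, abs_zero])] at h1
    linarith [hFpos p hp]
  set u : (Fin d → ℤ) → Fin d → ℝ := fun p i => Real.log |y p i| with hu
  have husum : ∀ p ∈ S, ∑ i, u p i = Real.log |FF g (iR p)| := by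
    intro p hp
    rw [← hyprod p hp, Real.log_prod fun i _ => abs_ne_zero.2 (hy0 p hp i)]
  have hux : ∀ p ∈ S, ∀ i, u p i ≤ x := by
    intro p hp i
    rw [hu]
    simp only
    rw [Real.log_le_iff_le_exp (abs_pos.2 (hy0 p hp i))]
    exact (hS p hp).2.2.1 i
  have hloglam1 : ∀ p ∈ S, Real.log ν ≤ Real.log |FF g (iR p)| := fun p hp =>
    Real.log_le_log hν (hFν p hp)
  have hloglam2 : ∀ p ∈ S, Real.log |FF g (iR p)| ≤ Real.log Λ := fun p hp =>
    Real.log_le_log (hFpos p hp) (hS p hp).2.1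
  have hlog3 : ∀ p ∈ S, |Real.log (abs (FF g (iR p)))| ≤ B₀ := by
    intro p hp
    have h1 := hloglam1 p hp
    have h2 := hloglam2 p hp
    rw [abs_le]
    constructor
    · linarith [neg_abs_le (Real.log ν), abs_nonneg (Real.log Λ)]
    · linarith [le_abs_self (Real.log Λ), abs_nonneg (Real.log ν)]
  have hulow : ∀ p ∈ S, ∀ i, -((d + |Real.log ν|) * x) ≤ u p i := by
    intro p hp i
    have h1 := husum p hp
    rw [← Finset.add_sum_erase Finset.univ _ (Finset.mem_univ i)] at h1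
    have h2 : ∑ j ∈ Finset.univ.erase i, u p j ≤
        ∑ _j ∈ Finset.univ.erase i, x := Finset.sum_le_sum fun j _ => hux p hp j
    rw [Finset.sum_const, Finset.card_erase_of_mem (Finset.mem_univ i), Finset.card_univ,
      Fintype.card_fin, nsmul_eq_mul, Nat.cast_sub (by omega : 1 ≤ d)] at h2
    have h3 : |Real.log ν| ≤ |Real.log ν| * x := le_mul_of_one_le_right (abs_nonneg _) hx
    push_cast at h2
    nlinarith [neg_abs_le (Real.log ν), hloglam1 p hp]
  have huX : ∀ p ∈ S, ∀ i, |u p i| ≤ (d + |Real.log ν|) * x := by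
    intro p hp i
    rw [abs_le]
    refine ⟨hulow p hp i, (hux p hp i).trans ?_⟩
    exact le_mul_of_one_le_left hx0 (by linarith [abs_nonneg (Real.log ν)])
  have hX1 : 1 ≤ (d + |Real.log ν|) * x := by
    have := abs_nonneg (Real.log ν)
    nlinarith
  -- the patterns
  have hpat : ∀ p ∈ S, ∀ J : Inj d e, ∃ ab : Mon (e + 1) t × Mon (e + 1) t, ab.1 ≠ ab.2 ∧
      |rel J.1 ab.1 ab.2 (u p) + (Real.log |h J.1 ab.1| - Real.log |h J.1 ab.2|)| ≤ lM := by
    intro p hp J
    obtain ⟨a, b, hab, hle⟩ := near_hyperplane (ex (d := e + 1) (n := t)) (h J.1) (hh J.1 J.2)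
      (fun i => y p (J.1 i)) (fun i => hy0 p hp _) hθ0 hθ ((hS p hp).2.2.2 J.1 J.2)
    refine ⟨(a, b), hab, ?_⟩
    rw [rel_apply]
    exact hle
  have : Nonempty (Mon (e + 1) t) := by
    rw [← Fintype.card_pos_iff, card_Mon_succ]
    exact Nat.choose_pos (by omega)
  choose! pat hpat1 hpat2 using hpat
  set pt : (Fin d → ℤ) → Inj d e → Mon (e + 1) t × Mon (e + 1) t := fun p J => pat p J with hpt
  have hclass : ∀ π : Inj d e → Mon (e + 1) t × Mon (e + 1) t,
      ((S.filter fun p => pt p = π).card : ℝ) ≤ C₁ π * X₀ ^ (e - 1) * x ^ (e - 1) := by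
    intro π
    rcases (S.filter fun p => pt p = π).eq_empty_or_nonempty with h0 | ⟨p₀, hp₀⟩
    · rw [h0, card_empty, Nat.cast_zero]
      positivity
    have hπ : ∀ J, (π J).1 ≠ (π J).2 := by
      intro J
      obtain ⟨h1, h2⟩ := mem_filter.1 hp₀
      rw [← h2]
      exact hpat1 p₀ h1 J
    obtain ⟨hR0, hRπ⟩ := hR π hπ
    have h1 := hRπ (S.filter fun p => pt p = π) u ((d + |Real.log ν|) * x) hX1
      (fun p hp i => huX p (mem_filter.1 hp).1 i) ?_ (C₁ π) ?_
    · refine h1.trans (le_of_eq ?_)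
      rw [hX₀, ← mul_assoc, mul_pow, mul_assoc]
    · intro p hp q hq j
      obtain ⟨hpS, hpe⟩ := mem_filter.1 hp
      obtain ⟨hqS, hqe⟩ := mem_filter.1 hq
      rcases j with _ | J
      · show |tot (u q - u p)| ≤ B
        rw [map_sub, tot_apply, tot_apply, husum p hpS, husum q hqS]
        have h2 := hloglam1 p hpS
        have h3 := hloglam1 q hqS
        have h4 := hloglam2 p hpS
        have h5 := hloglam2 q hqS
        have h6 := abs_nonneg lM
        rw [abs_le, hB, hB₀]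
        constructor <;> linarith [neg_abs_le (Real.log ν), le_abs_self (Real.log Λ)]
      · show |rel J.1 (π J).1 (π J).2 (u q - u p)| ≤ B
        have h2 := hpat2 p hpS J
        have h3 := hpat2 q hqS J
        have e1 : pat p J = π J := congrFun hpe J
        have e2 : pat q J = π J := congrFun hqe J
        rw [e1] at h2
        rw [e2] at h3
        rw [map_sub]
        have h4 := abs_le.1 h2
        have h5 := abs_le.1 h3
        have h6 := le_abs_self lM
        have h7 := abs_nonneg (Real.log ν)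
        have h8 := abs_nonneg (Real.log Λ)
        rw [abs_le, hB, hB₀]
        constructor <;> linarith
    · intro p hp T hT hTR
      obtain ⟨hpS, -⟩ := mem_filter.1 hp
      set s : ℝ := Real.log |FF g (iR p)| with hs
      set φ : Fin d → ℝ := fun i => -u p i + s / d with hφ
      have hd0 : (d : ℝ) ≠ 0 := by positivity
      have hφ1 : ∏ i, Real.exp (φ i) = 1 := by
        rw [← Real.exp_sum, hφ, sum_add_distrib, sum_neg_distrib, husum p hpS, sum_const,
          card_univ, Fintype.card_fin, nsmul_eq_mul, mul_div_cancel₀ _ hd0, neg_add_cancel,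
          Real.exp_zero]
      refine hC₁ π (diagonal (fun i => Real.exp (φ i)) * g) ?_ ?_ T fun q hq i => ?_
      · rw [det_mul, det_diagonal, hφ1, one_mul]
        exact hgV
      · intro q hq
        rw [FF_diag_mul, hφ1, one_mul]
        exact hnu q hq
      · have hqS := (mem_filter.1 (hT hq)).1
        rw [← mulVec_mulVec, mulVec_diagonal, abs_mul, abs_of_pos (Real.exp_pos _)]
        have h2 : |(g *ᵥ iR q) i| = Real.exp (u q i) := by
          rw [hu]
          simp only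
          rw [Real.exp_log (abs_pos.2 (hy0 q hqS i))]
        rw [h2, ← Real.exp_add, Real.exp_le_exp]
        have h3 := (abs_le.1 (hTR q hq i)).2
        have h4 : s / d ≤ B₀ := by
          have h5 : |s| ≤ B₀ := hlog3 p hpS
          have h6 : s / d ≤ |s| / d := div_le_div_of_nonneg_right (le_abs_self s) (by linarith)
          have h7 : |s| / d ≤ |s| := div_le_self (abs_nonneg s) hd1
          linarith
        simp only [hφ]
        linarith
  have hsum : (S.card : ℝ) = ∑ π : Inj d e → Mon (e + 1) t × Mon (e + 1) t,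
      ((S.filter fun p => pt p = π).card : ℝ) := by
    rw [← Nat.cast_sum]
    congr 1
    exact card_eq_sum_card_fiberwise fun p _ => mem_univ _
  calc (S.card : ℝ) = _ := hsum
    _ ≤ ∑ π : Inj d e → Mon (e + 1) t × Mon (e + 1) t, C₁ π * X₀ ^ (e - 1) * x ^ (e - 1) :=
        sum_le_sum fun π _ => hclass π
    _ = C * x ^ (e - 1) := by rw [hC, sum_mul]
    _ ≤ (C + 1) * x ^ (e - 1) := by
        refine mul_le_mul_of_nonneg_right (by linarith) (pow_nonneg hx0 _)

end Pool.Agent.K6.H9.SV
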