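import Mathlib

/-! # The maximal minors of a real matrix at different positions of the diagonal group -/

namespace Pool.Agent.K6.H9.SV

open Finset Matrix

variable {d e : ℕ}

/-- the minor of the rows `r` -/
noncomputable def mnr (Y : Matrix (Fin d) (Fin e) ℝ) (r : Fin e → Fin d) : ℝ :=
  (Y.submatrix r id).det

/-- the sum of the entries of `u` at the rows `r` -/
def su (u : Fin d → ℝ) (r : Fin e → Fin d) : ℝ := ∑ j, u (r j)

/-- all minors are at most `exp K` at the position `u` -/
def Le (Y : Matrix (Fin d) (Fin e) ℝ) (u : Fin d → ℝ) (K : ℝ) : Prop :=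
  ∀ r, Real.exp (-su u r) * |mnr Y r| ≤ Real.exp K

/-- at each position of sum zero some minor is at least `exp (-c)` -/
def Low (Y : Matrix (Fin d) (Fin e) ℝ) (c : ℝ) : Prop :=
  ∀ u : Fin d → ℝ, ∑ i, u i = 0 → ∃ r, Real.exp (-c) ≤ Real.exp (-su u r) * |mnr Y r|

lemma su_add (u v : Fin d → ℝ) (r : Fin e → Fin d) : su (u + v) r = su u r + su v r := by
  simp [su, sum_add_distrib]

lemma su_sub (u v : Fin d → ℝ) (r : Fin e → Fin d) : su (u - v) r = su u r - su v r := by
  simp [su, sum_sub_distrib]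

lemma su_smul (s : ℝ) (u : Fin d → ℝ) (r : Fin e → Fin d) : su (s • u) r = s * su u r := by
  simp [su, mul_sum]

lemma su_sum {ι : Type*} (T : Finset ι) (τ : ι → Fin d → ℝ) (r : Fin e → Fin d) :
    su (∑ t ∈ T, τ t) r = ∑ t ∈ T, su (τ t) r := by
  simp only [su, Finset.sum_apply]
  rw [sum_comm]

lemma Le_iff {Y : Matrix (Fin d) (Fin e) ℝ} {u : Fin d → ℝ} {K : ℝ} :
    Le Y u K ↔ ∀ r, mnr Y r ≠ 0 → Real.log |mnr Y r| ≤ K + su u r := by
  constructor
  · intro h r hr
    have h1 := h r
    have h2 : 0 < |mnr Y r| := abs_pos.2 hr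
    rw [← Real.exp_log h2, ← Real.exp_add, Real.exp_le_exp] at h1
    linarith
  · intro h r
    by_cases hr : mnr Y r = 0
    · rw [hr, abs_zero, mul_zero]
      exact (Real.exp_pos _).le
    · have h1 := h r hr
      have h2 : 0 < |mnr Y r| := abs_pos.2 hr
      rw [← Real.exp_log h2, ← Real.exp_add, Real.exp_le_exp]
      linarith

/-- convexity -/
lemma Le_avg {Y : Matrix (Fin d) (Fin e) ℝ} {K : ℝ} {ι : Type*} [Fintype ι] [Nonempty ι]
    (τ : ι → Fin d → ℝ) (h : ∀ t, Le Y (τ t) K) :
    Le Y ((Fintype.card ι : ℝ)⁻¹ • ∑ t, τ t) K := by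
  rw [Le_iff]
  intro r hr
  have hN : (0 : ℝ) < Fintype.card ι := by exact_mod_cast Fintype.card_pos
  have h1 : ∑ _t : ι, Real.log |mnr Y r| ≤ ∑ t, (K + su (τ t) r) :=
    sum_le_sum fun t _ => Le_iff.1 (h t) r hr
  rw [sum_add_distrib, sum_const, sum_const, card_univ, nsmul_eq_mul, nsmul_eq_mul] at h1
  rw [su_smul, su_sum]
  have h2 : Real.log |mnr Y r| = (Fintype.card ι : ℝ)⁻¹ * (Fintype.card ι * Real.log |mnr Y r|) := by
    field_simp
  have h3 : K + (Fintype.card ι : ℝ)⁻¹ * ∑ t, su (τ t) r =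
      (Fintype.card ι : ℝ)⁻¹ * (Fintype.card ι * K + ∑ t, su (τ t) r) := by
    field_simp
  rw [h2, h3]
  exact mul_le_mul_of_nonneg_left h1 (inv_nonneg.2 hN.le)

/-- the determinant of the unit matrix with one row replaced -/
lemma det_updateRow_one (j : Fin e) (b : Fin e → ℝ) :
    ((1 : Matrix (Fin e) (Fin e) ℝ).updateRow j b).det = b j := by
  rw [← cramer_transpose_apply, transpose_one, cramer_one]
  rfl

/-- the bound of the differences along the edges of the graph -/
noncomputable def Gc (d e : ℕ) (c K : ℝ) : ℝ :=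
  2 * (K + c) + ((e : ℝ) * d + 1) * (K + c + 1) + Real.log (e.factorial : ℝ)

/-- **The graph of the large entries.** -/
theorem graph_at {Y : Matrix (Fin d) (Fin e) ℝ} {c K : ℝ} (hcK : 0 ≤ K + c) (hlow : Low Y c)
    (u₀ : Fin d → ℝ) (hu₀ : ∑ i, u₀ i = 0) (hle : Le Y u₀ K) :
    ∃ G : SimpleGraph (Fin d),
      (∀ B : Finset (Fin d), (∀ i k, G.Adj i k → (i ∈ B ↔ k ∈ B)) → d ∣ e * B.card) ∧
      ∀ v : Fin d → ℝ, Le Y (u₀ + v) K → Le Y (u₀ - v) K → ∀ i k, G.Adj i k →
        |v i - v k| ≤ Gc d e c K := by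
  classical
  obtain ⟨r', hr'⟩ := hlow u₀ hu₀
  obtain ⟨r₀, -, hmax⟩ := exists_max_image (univ : Finset (Fin e → Fin d))
    (fun r => Real.exp (-su u₀ r) * |mnr Y r|) ⟨r', mem_univ _⟩
  have hr₀c : Real.exp (-c) ≤ Real.exp (-su u₀ r₀) * |mnr Y r₀| := hr'.trans (hmax r' (mem_univ _))
  have hr₀K := hle r₀
  set s : ℝ := K + c + 1 with hs
  have hs1 : 1 ≤ s := by linarith
  set θ : ℝ := Real.exp (-(((e : ℝ) * d + 1) * s)) / (e.factorial : ℝ) with hθ
  have hfac : (0 : ℝ) < (e.factorial : ℝ) := by exact_mod_cast e.factorial_pos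
  have hθ0 : 0 < θ := div_pos (Real.exp_pos _) hfac
  -- normalized matrix
  set Yt : Matrix (Fin d) (Fin e) ℝ := fun i k => Real.exp (-u₀ i) * Y i k with hYt
  have hYtm : ∀ r : Fin e → Fin d, mnr Yt r = Real.exp (-su u₀ r) * mnr Y r := by
    intro r
    have h1 : Yt.submatrix r id = diagonal (fun j => Real.exp (-u₀ (r j))) * Y.submatrix r id := by
      ext j k
      rw [diagonal_mul]
      rfl
    rw [mnr, h1, det_mul, det_diagonal, mnr, ← Real.exp_sum, su, sum_neg_distrib]
  have habs : ∀ r : Fin e → Fin d, |mnr Yt r| = Real.exp (-su u₀ r) * |mnr Y r| := by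
    intro r
    rw [hYtm, abs_mul, abs_of_pos (Real.exp_pos _)]
  set A : Matrix (Fin e) (Fin e) ℝ := Yt.submatrix r₀ id with hA
  have hAdet : A.det = mnr Yt r₀ := rfl
  have hA1 : Real.exp (-c) ≤ |A.det| := by rw [hAdet, habs]; exact hr₀c
  have hA2 : |A.det| ≤ Real.exp K := by rw [hAdet, habs]; exact hr₀K
  have hApos : 0 < |A.det| := (Real.exp_pos _).trans_le hA1
  have hA0 : A.det ≠ 0 := abs_pos.1 hApos
  have hAu : IsUnit A.det := isUnit_iff_ne_zero.2 hA0
  set Cm : Matrix (Fin d) (Fin e) ℝ := Yt * A⁻¹ with hCm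
  have hCmm : ∀ r : Fin e → Fin d, mnr Cm r = mnr Yt r / A.det := by
    intro r
    have h1 : Cm.submatrix r id = Yt.submatrix r id * A⁻¹ := by
      ext j k
      rfl
    rw [mnr, h1, det_mul, det_nonsing_inv, Ring.inverse_eq_inv', ← div_eq_mul_inv]
    rfl
  have hCm1 : ∀ r : Fin e → Fin d, |mnr Cm r| ≤ 1 := by
    intro r
    rw [hCmm, abs_div, div_le_one hApos, hAdet, habs, habs]
    exact hmax r (mem_univ _)
  have hCm0 : Cm.submatrix r₀ id = 1 := by
    have h1 : Cm.submatrix r₀ id = A * A⁻¹ := by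
      ext j k
      rfl
    rw [h1, Matrix.mul_nonsing_inv _ hAu]
  have hentry : ∀ i j, mnr Cm (Function.update r₀ j i) = Cm i j := by
    intro i j
    have h1 : Cm.submatrix (Function.update r₀ j i) id =
        (1 : Matrix (Fin e) (Fin e) ℝ).updateRow j (Cm i) := by
      ext j' k
      by_cases hj : j' = j
      · subst hj
        simp [updateRow_self]
      · rw [updateRow_ne hj, ← hCm0]
        simp [Function.update_of_ne hj]
    rw [mnr, h1, det_updateRow_one]
  have hentry1 : ∀ i j, |Cm i j| ≤ 1 := fun i j => by rw [← hentry]; exact hCm1 _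
  set G : SimpleGraph (Fin d) := SimpleGraph.fromRel
    (fun i k => ∃ j, k = r₀ j ∧ θ ≤ |Cm i j|) with hG
  refine ⟨G, fun B hB => ?_, fun v hv1 hv2 => ?_⟩
  · have hB' : ∀ i j, θ ≤ |Cm i j| → (i ∈ B ↔ r₀ j ∈ B) := by
      intro i j hij
      by_cases h0 : i = r₀ j
      · rw [h0]
      · exact hB i (r₀ j) (by
          rw [hG, SimpleGraph.fromRel_adj]
          exact ⟨h0, Or.inl ⟨j, rfl, hij⟩⟩)
    set n : ℕ := B.card with hn
    have hnd : n ≤ d := by
      rw [hn]
      exact (card_le_univ _).trans (le_of_eq (Fintype.card_fin d))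
    set t : Fin d → ℝ := fun i => if i ∈ B then (d : ℝ) - n else -(n : ℝ) with ht
    set mm : (Fin e → Fin d) → ℕ := fun r => (univ.filter fun j => r j ∈ B).card with hmm
    have hsut : ∀ r : Fin e → Fin d, su t r = (mm r : ℝ) * d - (n : ℝ) * e := by
      intro r
      have h1 : ∀ j, t (r j) = (if r j ∈ B then (d : ℝ) else 0) - n := by
        intro j
        simp only [ht]
        split_ifs <;> ring
      rw [su, sum_congr rfl fun j _ => h1 j, sum_sub_distrib, sum_const, card_univ,
        Fintype.card_fin, nsmul_eq_mul, ← sum_filter, sum_const, nsmul_eq_mul]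
      ring
    have hsumt : ∑ i, t i = 0 := by
      have h1 : ∀ i, t i = (if i ∈ B then (d : ℝ) else 0) - n := by
        intro i
        simp only [ht]
        split_ifs <;> ring
      rw [sum_congr rfl fun i _ => h1 i, sum_sub_distrib, sum_const, card_univ,
        Fintype.card_fin, nsmul_eq_mul, ← sum_filter, sum_const, nsmul_eq_mul]
      have h2 : (univ.filter fun i => i ∈ B) = B := by
        ext i
        simp
      rw [h2, ← hn]
      ring
    have htabs : ∀ i, |t i| ≤ d := by
      intro i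
      have h1 : (n : ℝ) ≤ d := by exact_mod_cast hnd
      have h2 : (0 : ℝ) ≤ n := Nat.cast_nonneg _
      simp only [ht]
      split_ifs
      · rw [abs_le]
        constructor <;> linarith
      · rw [abs_neg, abs_of_nonneg h2]
        exact h1
    by_cases hq : (mm r₀ : ℝ) * d - (n : ℝ) * e = 0
    · refine ⟨mm r₀, ?_⟩
      have h1 : (mm r₀ : ℝ) * d = (n : ℝ) * e := by linarith
      have h2 : mm r₀ * d = n * e := by exact_mod_cast h1
      rw [mul_comm d, h2, mul_comm]
    exfalso
    -- the sign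
    obtain ⟨σ, hσ1, hσ2⟩ : ∃ σ : ℝ, |σ| = 1 ∧ 1 ≤ σ * ((mm r₀ : ℝ) * d - (n : ℝ) * e) := by
      have hint : (mm r₀ : ℤ) * d - (n : ℤ) * e ≠ 0 := by
        intro h0
        apply hq
        exact_mod_cast congrArg (Int.cast (R := ℝ)) h0
      rcases lt_or_gt_of_ne hint with h1 | h1
      · refine ⟨-1, by simp, ?_⟩
        have h2 : (1 : ℤ) ≤ -((mm r₀ : ℤ) * d - (n : ℤ) * e) := by omega
        have h3 : (1 : ℝ) ≤ -((mm r₀ : ℝ) * d - (n : ℝ) * e) := by exact_mod_cast h2
        linarith
      · refine ⟨1, by simp, ?_⟩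
        have h2 : (1 : ℤ) ≤ ((mm r₀ : ℤ) * d - (n : ℤ) * e) := by omega
        have h3 : (1 : ℝ) ≤ ((mm r₀ : ℝ) * d - (n : ℝ) * e) := by exact_mod_cast h2
        linarith
    obtain ⟨r, hr⟩ := hlow (u₀ + (s * σ) • t) (by
      simp only [Pi.add_apply, Pi.smul_apply, smul_eq_mul]
      rw [sum_add_distrib, hu₀, ← mul_sum, hsumt, mul_zero, add_zero])
    rw [su_add, su_smul, neg_add, Real.exp_add, mul_right_comm, ← habs] at hr
    have hKs : Real.exp K * Real.exp (-s) < Real.exp (-c) := by
      rw [← Real.exp_add, Real.exp_lt_exp, hs]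
      linarith
    refine absurd hr (not_le.2 (lt_of_le_of_lt ?_ hKs))
    by_cases hmr : mm r = mm r₀
    · have h1 : |mnr Yt r| ≤ Real.exp K := by rw [habs]; exact hle r
      refine mul_le_mul h1 ?_ (Real.exp_pos _).le (Real.exp_pos _).le
      rw [Real.exp_le_exp, hsut, hmr]
      have h2 : s * 1 ≤ s * (σ * ((mm r₀ : ℝ) * d - (n : ℝ) * e)) :=
        mul_le_mul_of_nonneg_left hσ2 (by linarith)
      linarith
    · -- a small minor
      have hsmall : |mnr Cm r| ≤ Real.exp (-(((e : ℝ) * d + 1) * s)) := by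
        have hprod : ∀ τ : Equiv.Perm (Fin e), ∏ j, |Cm (r (τ j)) j| ≤ θ := by
          intro τ
          have hexj : ∃ j, ¬ (r (τ j) ∈ B ↔ r₀ j ∈ B) := by
            by_contra hcon
            push Not at hcon
            apply hmr
            simp only [hmm]
            refine (card_bij (fun j _ => τ j) ?_ ?_ ?_).symm
            · intro j hj
              rw [mem_filter] at hj ⊢
              exact ⟨mem_univ _, (hcon j).2 hj.2⟩
            · intro j _ j' _ h
              exact τ.injective h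
            · intro j hj
              rw [mem_filter] at hj
              refine ⟨τ.symm j, ?_, τ.apply_symm_apply j⟩
              rw [mem_filter]
              refine ⟨mem_univ _, (hcon _).1 ?_⟩
              rw [τ.apply_symm_apply]
              exact hj.2
          obtain ⟨j₀, hj₀⟩ := hexj
          have h1 : |Cm (r (τ j₀)) j₀| ≤ θ := by
            by_contra hcon
            exact hj₀ (hB' _ _ (not_le.1 hcon).le)
          rw [← mul_prod_erase univ _ (mem_univ j₀)]
          have h2 : ∏ j ∈ univ.erase j₀, |Cm (r (τ j)) j| ≤ 1 :=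
            prod_le_one (fun _ _ => abs_nonneg _) fun j _ => hentry1 _ _
          calc |Cm (r (τ j₀)) j₀| * ∏ j ∈ univ.erase j₀, |Cm (r (τ j)) j| ≤ θ * 1 :=
                mul_le_mul h1 h2 (prod_nonneg fun _ _ => abs_nonneg _) hθ0.le
            _ = θ := mul_one _
        rw [mnr, det_apply]
        refine (abs_sum_le_sum_abs _ _).trans ?_
        have h3 : ∑ τ : Equiv.Perm (Fin e), |Equiv.Perm.sign τ • ∏ j, (Cm.submatrix r id) (τ j) j| ≤
            ∑ _τ : Equiv.Perm (Fin e), θ := by
          refine sum_le_sum fun τ _ => ?_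
          have h4 : |Equiv.Perm.sign τ • ∏ j, (Cm.submatrix r id) (τ j) j| =
              ∏ j, |Cm (r (τ j)) j| := by
            rw [Units.smul_def, zsmul_eq_mul, abs_mul, ← abs_prod]
            have h5 : |((Equiv.Perm.sign τ : ℤˣ) : ℤ)| = 1 := Int.isUnit_iff_abs_eq.1 (Units.isUnit _)
            have h6 : |(((Equiv.Perm.sign τ : ℤˣ) : ℤ) : ℝ)| = 1 := by exact_mod_cast h5
            rw [h6, one_mul]
            rfl
          rw [h4]
          exact hprod τ
        refine h3.trans (le_of_eq ?_)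
        rw [sum_const, card_univ, Fintype.card_perm, Fintype.card_fin, nsmul_eq_mul, hθ,
          mul_div_cancel₀ _ hfac.ne']
      have h1 : |mnr Yt r| ≤ Real.exp (-(((e : ℝ) * d + 1) * s)) * Real.exp K := by
        have h2 : |mnr Yt r| = |mnr Cm r| * |A.det| := by
          rw [hCmm, abs_div, div_mul_cancel₀ _ hApos.ne']
        rw [h2]
        exact mul_le_mul hsmall hA2 (abs_nonneg _) (Real.exp_pos _).le
      have h3 : |su t r| ≤ (e : ℝ) * d := by
        refine (abs_sum_le_sum_abs _ _).trans ?_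
        have h4 : ∑ j, |t (r j)| ≤ ∑ _j : Fin e, (d : ℝ) := sum_le_sum fun j _ => htabs _
        refine h4.trans (le_of_eq ?_)
        rw [sum_const, card_univ, Fintype.card_fin, nsmul_eq_mul]
      have h5 : -(s * σ * su t r) ≤ s * ((e : ℝ) * d) := by
        have h6 : |s * σ * su t r| ≤ s * ((e : ℝ) * d) := by
          rw [abs_mul, abs_mul, hσ1, mul_one, abs_of_nonneg (by linarith : (0 : ℝ) ≤ s)]
          exact mul_le_mul_of_nonneg_left h3 (by linarith)
        exact (neg_le_abs _).trans h6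
      calc |mnr Yt r| * Real.exp (-(s * σ * su t r)) ≤
          (Real.exp (-(((e : ℝ) * d + 1) * s)) * Real.exp K) * Real.exp (s * ((e : ℝ) * d)) :=
            mul_le_mul h1 (Real.exp_le_exp.2 h5) (Real.exp_pos _).le (by positivity)
        _ = Real.exp K * Real.exp (-s) := by
            rw [← Real.exp_add, ← Real.exp_add, ← Real.exp_add]
            congr 1
            ring
  · -- differences along edges
    have hcore : ∀ i j, θ ≤ |Cm i j| → |v i - v (r₀ j)| ≤ Gc d e c K := by
      intro i j hij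
      set r₁ := Function.update r₀ j i with hr₁
      have hsu : su v r₁ - su v r₀ = v i - v (r₀ j) := by
        rw [su, su, ← sum_sub_distrib, sum_eq_single j]
        · rw [hr₁, Function.update_self]
        · intro j' _ hj'
          rw [hr₁, Function.update_of_ne hj', sub_self]
        · intro h
          exact absurd (mem_univ _) h
      have h1 : θ * Real.exp (-c) ≤ |mnr Yt r₁| := by
        have h2 : |mnr Yt r₁| = |mnr Cm r₁| * |A.det| := by
          rw [hCmm, abs_div, div_mul_cancel₀ _ hApos.ne']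
        rw [h2, hr₁, hentry]
        exact mul_le_mul hij hA1 (Real.exp_pos _).le (abs_nonneg _)
      have h0 : Real.exp (-c) ≤ |mnr Yt r₀| := hA1
      have hup : ∀ (r : Fin e → Fin d) (κ : ℝ), Real.exp κ ≤ |mnr Yt r| → |su v r| ≤ K - κ := by
        intro r κ hκ
        have h3 := hv1 r
        have h4 := hv2 r
        rw [su_add, neg_add, Real.exp_add, mul_right_comm, ← habs] at h3
        rw [su_sub, neg_sub, sub_eq_add_neg, Real.exp_add, mul_comm (Real.exp (su v r)),
          mul_right_comm, ← habs] at h4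
        have h5 := (mul_le_mul_of_nonneg_right hκ (Real.exp_pos (-su v r)).le).trans h3
        have h6 := (mul_le_mul_of_nonneg_right hκ (Real.exp_pos (su v r)).le).trans h4
        rw [← Real.exp_add, Real.exp_le_exp] at h5 h6
        rw [abs_le]
        constructor <;> linarith
      have h7 := hup r₀ (-c) h0
      have h8 := hup r₁ (Real.log θ - c) (by
        rw [Real.exp_sub, Real.exp_log hθ0, div_eq_mul_inv, ← Real.exp_neg]
        exact h1)
      have h9 : Real.log θ = -(((e : ℝ) * d + 1) * s) - Real.log (e.factorial : ℝ) := by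
        rw [hθ, Real.log_div (Real.exp_pos _).ne' hfac.ne', Real.log_exp]
      rw [← hsu]
      refine (abs_sub _ _).trans ?_
      rw [Gc, ← hs]
      linarith
    intro i k hik
    rw [hG, SimpleGraph.fromRel_adj] at hik
    obtain ⟨-, ⟨j, rfl, hj⟩ | ⟨j, rfl, hj⟩⟩ := hik
    · exact hcore i j hj
    · rw [abs_sub_comm]
      exact hcore k j hj

end Pool.Agent.K6.H9.SV
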