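import Mathlib
import Pool.Agent.K6.H9.SV.Minors

/-! # The positions at which a subspace has bounded covolume -/

namespace Pool.Agent.K6.H9.SV

open Finset Matrix

variable {d e : ℕ}

lemma walk_bound {G : SimpleGraph (Fin d)} {v : Fin d → ℝ} {g : ℝ}
    (h : ∀ i k, G.Adj i k → |v i - v k| ≤ g) {i k : Fin d} (p : G.Walk i k) :
    |v i - v k| ≤ p.length * g := by
  induction p with
  | nil => simp
  | @cons a b c hab p ih =>
    have h1 : v a - v c = (v a - v b) + (v b - v c) := by ring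
    rw [h1, SimpleGraph.Walk.length_cons]
    refine (abs_add_le _ _).trans ?_
    push_cast
    linarith [h a b hab]

lemma reach_bound {G : SimpleGraph (Fin d)} {v : Fin d → ℝ} {g : ℝ} (hg : 0 ≤ g)
    (h : ∀ i k, G.Adj i k → |v i - v k| ≤ g) {i k : Fin d} (hik : G.Reachable i k) :
    |v i - v k| ≤ d * g := by
  classical
  obtain ⟨p, hp⟩ := hik.exists_isPath
  refine (walk_bound h p).trans (mul_le_mul_of_nonneg_right ?_ hg)
  have h1 := hp.length_lt
  rw [Fintype.card_fin] at h1
  exact_mod_cast h1.le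

lemma div_gcd_dvd {d e n : ℕ} (hd : 0 < d) (h : d ∣ e * n) : d / Nat.gcd e d ∣ n := by
  set g := Nat.gcd e d with hg
  have hg0 : 0 < g := Nat.gcd_pos_of_pos_right _ hd
  have hcop : Nat.Coprime (d / g) (e / g) := by
    have h1 := Nat.coprime_div_gcd_div_gcd (m := e) (n := d) hg0
    rw [← hg] at h1
    exact h1.symm
  have h1 : g * (d / g) ∣ g * ((e / g) * n) := by
    rw [Nat.mul_div_cancel' (Nat.gcd_dvd_right _ _), ← mul_assoc,
      Nat.mul_div_cancel' (Nat.gcd_dvd_left _ _)]
    exact h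
  exact hcop.dvd_of_dvd_mul_left (Nat.dvd_of_mul_dvd_mul_left hg0 h1)

/-- the classes have sizes which are multiples of `d / gcd e d`, so there are few of them -/
lemma card_components {G : SimpleGraph (Fin d)} (hd : 0 < d)
    (h : ∀ B : Finset (Fin d), (∀ i k, G.Adj i k → (i ∈ B ↔ k ∈ B)) → d ∣ e * B.card) :
    Nat.card G.ConnectedComponent ≤ Nat.gcd e d := by
  classical
  have hg0 : 0 < Nat.gcd e d := Nat.gcd_pos_of_pos_right _ hd
  have hd'0 : 0 < d / Nat.gcd e d :=
    Nat.div_pos (Nat.le_of_dvd hd (Nat.gcd_dvd_right _ _)) hg0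
  have hcls : ∀ κ : G.ConnectedComponent,
      d / Nat.gcd e d ≤ (univ.filter fun i => G.connectedComponentMk i = κ).card := by
    intro κ
    set B := univ.filter fun i => G.connectedComponentMk i = κ with hB
    have h1 : d ∣ e * B.card := by
      refine h B fun i k hik => ?_
      simp only [hB, mem_filter, mem_univ, true_and]
      rw [SimpleGraph.ConnectedComponent.sound hik.reachable]
    have h4 : 0 < B.card := by
      obtain ⟨i, hi⟩ := κ.exists_rep
      refine card_pos.2 ⟨i, ?_⟩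
      rw [hB, mem_filter]
      exact ⟨mem_univ _, hi⟩
    exact Nat.le_of_dvd h4 (div_gcd_dvd hd h1)
  have h5 : ∑ κ : G.ConnectedComponent, (univ.filter fun i => G.connectedComponentMk i = κ).card =
      Fintype.card (Fin d) := by
    rw [← card_eq_sum_card_fiberwise (fun i _ => mem_univ (G.connectedComponentMk i)), card_univ]
  have h6 : Nat.card G.ConnectedComponent * (d / Nat.gcd e d) ≤
      Nat.gcd e d * (d / Nat.gcd e d) := by
    rw [Nat.mul_div_cancel' (Nat.gcd_dvd_right _ _)]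
    have h7 : Nat.card G.ConnectedComponent * (d / Nat.gcd e d) =
        ∑ _κ : G.ConnectedComponent, d / Nat.gcd e d := by
      rw [sum_const, smul_eq_mul, card_univ, Nat.card_eq_fintype_card]
    rw [h7]
    refine (sum_le_sum fun κ _ => hcls κ).trans ?_
    rw [h5, Fintype.card_fin]
  exact Nat.le_of_mul_le_mul_right h6 hd'0

/-- the width -/
noncomputable def Wd (d e : ℕ) (c K : ℝ) : ℝ := (d : ℝ) ^ 3 * Gc d e c K

lemma Gc_nonneg {c K : ℝ} (hcK : 0 ≤ K + c) : 0 ≤ Gc d e c K := by
  unfold Gc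
  have h1 : 0 ≤ Real.log (e.factorial : ℝ) := Real.log_natCast_nonneg _
  have h2 : 0 ≤ ((e : ℝ) * d + 1) * (K + c + 1) := by positivity
  linarith

/-- **The classes of indices.** -/
theorem classes {Y : Matrix (Fin d) (Fin e) ℝ} {c K : ℝ} (hd : 0 < d) (hcK : 0 ≤ K + c)
    (hlow : Low Y c) (S : Finset (Fin d → ℝ)) (hSn : S.Nonempty) (hS0 : ∀ u ∈ S, ∑ i, u i = 0)
    (hSK : ∀ u ∈ S, Le Y u K) :
    ∃ G : SimpleGraph (Fin d), Nat.card G.ConnectedComponent ≤ Nat.gcd e d ∧
      ∀ i k, G.Reachable i k → ∀ u ∈ S, ∀ u' ∈ S,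
        |(u i - u' i) - (u k - u' k)| ≤ Wd d e c K := by
  classical
  -- extremal elements
  have hex : ∀ ik : Fin d × Fin d, ∃ u ∈ S, ∀ u' ∈ S, u' ik.1 - u' ik.2 ≤ u ik.1 - u ik.2 :=
    fun ik => exists_max_image S (fun u => u ik.1 - u ik.2) hSn
  choose τ hτS hτmax using hex
  have hdR : (0 : ℝ) < d := by exact_mod_cast hd
  have : Nonempty (Fin d × Fin d) := ⟨(⟨0, hd⟩, ⟨0, hd⟩)⟩
  set N : ℝ := (Fintype.card (Fin d × Fin d) : ℝ) with hN
  have hN2 : N = (d : ℝ) ^ 2 := by
    rw [hN, Fintype.card_prod, Fintype.card_fin]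
    push_cast
    ring
  have hN0 : 0 < N := by rw [hN2]; positivity
  set u₀ : Fin d → ℝ := N⁻¹ • ∑ t, τ t with hu₀
  have hsum0 : ∑ i, u₀ i = 0 := by
    simp only [hu₀, Pi.smul_apply, Finset.sum_apply, smul_eq_mul]
    rw [← mul_sum, sum_comm, sum_congr rfl fun t _ => hS0 _ (hτS t), sum_const_zero, mul_zero]
  obtain ⟨G, hG1, hG2⟩ := graph_at hcK hlow u₀ hsum0 (Le_avg τ fun t => hSK _ (hτS t))
  refine ⟨G, card_components hd hG1, ?_⟩
  intro i k hik u hu u' hu'
  have hside : ∀ i k : Fin d, G.Reachable i k → ∀ u ∈ S, ∀ u' ∈ S,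
      (u i - u' i) - (u k - u' k) ≤ Wd d e c K := by
    intro i k hik u hu u' hu'
    by_cases hne : i = k
    · subst hne
      rw [sub_self]
      exact mul_nonneg (by positivity) (Gc_nonneg hcK)
    set v : Fin d → ℝ := N⁻¹ • (τ (i, k) - τ (k, i)) with hv
    have hikne : (i, k) ≠ (k, i) := fun h => hne (Prod.mk.inj h).1
    have hplus : ∀ a b : Fin d × Fin d, a ≠ b → Le Y (u₀ + N⁻¹ • (τ a - τ b)) K := by
      intro a b hab
      have h1 : u₀ + N⁻¹ • (τ a - τ b) = N⁻¹ • ∑ t, Function.update τ b (τ a) t := by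
        rw [hu₀, ← smul_add]
        congr 1
        rw [← add_sum_erase univ τ (mem_univ b),
          ← add_sum_erase univ (Function.update τ b (τ a)) (mem_univ b), Function.update_self]
        rw [sum_congr rfl fun t ht => Function.update_of_ne (ne_of_mem_erase ht) _ _]
        abel
      rw [h1]
      refine Le_avg _ fun t => ?_
      by_cases ht : t = b
      · rw [ht, Function.update_self]
        exact hSK _ (hτS a)
      · rw [Function.update_of_ne ht]
        exact hSK _ (hτS t)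
    have hp1 : Le Y (u₀ + v) K := hplus _ _ hikne
    have hp2 : Le Y (u₀ - v) K := by
      have h1 : u₀ - v = u₀ + N⁻¹ • (τ (k, i) - τ (i, k)) := by
        rw [hv, ← neg_sub (τ (k, i)) (τ (i, k)), smul_neg, sub_neg_eq_add]
      rw [h1]
      exact hplus _ _ hikne.symm
    have h2 := reach_bound (Gc_nonneg (d := d) (e := e) hcK) (hG2 v hp1 hp2) hik
    have h3 : v i - v k = N⁻¹ * ((τ (i, k) i - τ (i, k) k) + (τ (k, i) k - τ (k, i) i)) := by
      simp only [hv, Pi.smul_apply, Pi.sub_apply, smul_eq_mul]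
      ring
    have h4 := hτmax (i, k) u hu
    have h5 := hτmax (k, i) u' hu'
    simp only at h4 h5
    have h6 : (u i - u' i) - (u k - u' k) ≤ N * (v i - v k) := by
      rw [h3, ← mul_assoc, mul_inv_cancel₀ hN0.ne', one_mul]
      linarith
    have h7 : v i - v k ≤ d * Gc d e c K := (le_abs_self _).trans h2
    have h8 : N * (v i - v k) ≤ Wd d e c K := by
      rw [Wd, hN2]
      have := mul_le_mul_of_nonneg_left h7 (by positivity : (0 : ℝ) ≤ (d : ℝ) ^ 2)
      refine this.trans (le_of_eq ?_)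
      ring
    exact h6.trans h8
  rw [abs_le]
  constructor
  · have := hside i k hik u' hu' u hu
    linarith
  · exact hside i k hik u hu u' hu'

/-- **Few coordinates determine a position up to a bounded error.** -/
theorem struct {Y : Matrix (Fin d) (Fin e) ℝ} {c K : ℝ} (hd : 0 < d) (hcK : 0 ≤ K + c)
    (hlow : Low Y c) (S : Finset (Fin d → ℝ)) (hS0 : ∀ u ∈ S, ∑ i, u i = 0)
    (hSK : ∀ u ∈ S, Le Y u K) :
    ∃ I : Finset (Fin d), I.card + 1 ≤ Nat.gcd e d ∧ ∀ u ∈ S, ∀ u' ∈ S, ∀ ρ : ℝ, 0 ≤ ρ →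
      (∀ i ∈ I, |u i - u' i| ≤ ρ) → ∀ i, |u i - u' i| ≤ d * (ρ + Wd d e c K) := by
  classical
  have hdR : (1 : ℝ) ≤ d := by exact_mod_cast hd
  rcases S.eq_empty_or_nonempty with hSe | hSn
  · refine ⟨∅, ?_, fun u hu => by rw [hSe] at hu; exact absurd hu (notMem_empty _)⟩
    rw [card_empty]
    exact Nat.gcd_pos_of_pos_right _ hd
  obtain ⟨G, hG1, hG2⟩ := classes hd hcK hlow S hSn hS0 hSK
  rw [Nat.card_eq_fintype_card] at hG1
  set κ₀ : G.ConnectedComponent := G.connectedComponentMk ⟨0, hd⟩ with hκ₀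
  have hrep : ∀ κ : G.ConnectedComponent, ∃ i, G.connectedComponentMk i = κ := fun κ => κ.exists_rep
  choose rep hrep using hrep
  have hW0 : 0 ≤ Wd d e c K := mul_nonneg (by positivity) (Gc_nonneg hcK)
  refine ⟨(univ.erase κ₀).image rep, ?_, ?_⟩
  · have h1 := card_image_le (s := univ.erase κ₀) (f := rep)
    rw [card_erase_of_mem (mem_univ κ₀), card_univ] at h1
    have h2 : 0 < Fintype.card G.ConnectedComponent := Fintype.card_pos_iff.2 ⟨κ₀⟩
    omega
  intro u hu u' hu' ρ hρ hI i
  have hcls : ∀ l, G.connectedComponentMk l ≠ κ₀ → |u l - u' l| ≤ ρ + Wd d e c K := by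
    intro l hl
    set κ := G.connectedComponentMk l with hκ
    have h1 := hI (rep κ) (mem_image.2 ⟨κ, mem_erase.2 ⟨hl, mem_univ _⟩, rfl⟩)
    have h2 : G.Reachable l (rep κ) := by
      rw [← SimpleGraph.ConnectedComponent.eq, hrep]
    have h3 := hG2 l (rep κ) h2 u hu u' hu'
    have h4 : u l - u' l = ((u l - u' l) - (u (rep κ) - u' (rep κ))) + (u (rep κ) - u' (rep κ)) := by
      ring
    rw [h4]
    refine (abs_add_le _ _).trans ?_
    linarith
  by_cases hi : G.connectedComponentMk i = κ₀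
  · set w : Fin d → ℝ := fun l => if G.connectedComponentMk l = κ₀ then u i - u' i else 0 with hw
    have hwsum : |∑ l, w l| ≤ d * (ρ + Wd d e c K) := by
      have h1 : ∑ l, w l = ∑ l, (w l - (u l - u' l)) := by
        rw [sum_sub_distrib, sum_sub_distrib, hS0 u hu, hS0 u' hu', sub_zero, sub_zero]
      rw [h1]
      refine (abs_sum_le_sum_abs _ _).trans ?_
      have h2 : ∑ l, |w l - (u l - u' l)| ≤ ∑ _l : Fin d, (ρ + Wd d e c K) := by
        refine sum_le_sum fun l _ => ?_
        simp only [hw]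
        split_ifs with hl
        · have h3 : G.Reachable i l := by
            rw [← SimpleGraph.ConnectedComponent.eq, hi, hl]
          have h4 := hG2 i l h3 u hu u' hu'
          linarith
        · rw [zero_sub, abs_neg]
          exact hcls l hl
      refine h2.trans (le_of_eq ?_)
      rw [sum_const, card_univ, Fintype.card_fin, nsmul_eq_mul]
    have hwn : ∑ l, w l = ((univ.filter fun l => G.connectedComponentMk l = κ₀).card : ℝ) *
        (u i - u' i) := by
      simp only [hw]
      rw [← sum_filter, sum_const, nsmul_eq_mul]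
    rw [hwn, abs_mul] at hwsum
    have hn1 : (1 : ℝ) ≤ ((univ.filter fun l => G.connectedComponentMk l = κ₀).card : ℝ) := by
      have : 0 < (univ.filter fun l => G.connectedComponentMk l = κ₀).card :=
        card_pos.2 ⟨i, mem_filter.2 ⟨mem_univ _, hi⟩⟩
      exact_mod_cast this
    refine le_trans ?_ hwsum
    rw [abs_of_nonneg (zero_le_one.trans hn1)]
    exact le_mul_of_one_le_left (abs_nonneg _) hn1
  · refine (hcls i hi).trans ?_
    exact le_mul_of_one_le_left (by linarith) hdR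

end Pool.Agent.K6.H9.SV
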