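import Mathlib
import Pool.Agent.N759.FV.Mult
import Pool.Agent.N759.WP.Sub
import Pool.Agent.K6.H9.SV.Struct

/-! # Minors of independent integer points -/

namespace Pool.Agent.K6.H9.SV

open Filter Topology Matrix H715R2
open Pool.Agent.W777.FV Pool.Agent.N759.UC Finset

variable {d e : ℕ}

/-- the matrix `Y` at the position `u` -/
noncomputable def scl (Y : Matrix (Fin d) (Fin e) ℝ) (u : Fin d → ℝ) : Matrix (Fin d) (Fin e) ℝ :=
  fun i k => Real.exp (-u i) * Y i k

lemma mnr_scale (Y : Matrix (Fin d) (Fin e) ℝ) (u : Fin d → ℝ) (r : Fin e → Fin d) :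
    mnr (scl Y u) r = Real.exp (-su u r) * mnr Y r := by
  have h1 : (scl Y u).submatrix r id =
      diagonal (fun j => Real.exp (-u (r j))) * Y.submatrix r id := by
    ext j k
    rw [diagonal_mul]
    rfl
  rw [mnr, h1, det_mul, det_diagonal, mnr, ← Real.exp_sum, su, sum_neg_distrib]

/-- expansion of the determinant of a product of rectangular matrices -/
lemma det_mul_expand (A : Matrix (Fin e) (Fin d) ℝ) (Y : Matrix (Fin d) (Fin e) ℝ) :
    (A * Y).det = ∑ r : Fin e → Fin d, (∏ j, A j (r j)) * mnr Y r := by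
  classical
  have h1 : (A * Y).det = Matrix.detRowAlternating (fun j => ∑ i, A j i • Y i) := by
    have h0 : (A * Y) = fun j => ∑ i, A j i • Y i := by
      funext j k
      rw [Matrix.mul_apply, Finset.sum_apply]
      rfl
    rw [h0]
    rfl
  rw [h1]
  have h2 := (Matrix.detRowAlternating (R := ℝ) (n := Fin e)).toMultilinearMap.map_sum
    (fun j i => A j i • Y i)
  have h3 : ∀ r : Fin e → Fin d, (Matrix.detRowAlternating (R := ℝ) (n := Fin e)).toMultilinearMap
      (fun j => A j (r j) • Y (r j)) = (∏ j, A j (r j)) * mnr Y r := by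
    intro r
    rw [MultilinearMap.map_smul_univ]
    rfl
  rw [show (Matrix.detRowAlternating (fun j => ∑ i, A j i • Y i) : ℝ) =
    (Matrix.detRowAlternating (R := ℝ) (n := Fin e)).toMultilinearMap
      (fun j => ∑ i, A j i • Y i) from rfl, h2]
  exact sum_congr rfl fun r _ => h3 r

/-- the coordinates of integer points -/
noncomputable def ym (g : Matrix (Fin d) (Fin d) ℝ) (P : Fin e → Fin d → ℤ) :
    Matrix (Fin d) (Fin e) ℝ := fun i k => (g *ᵥ iR (P k)) i

/-- **Sublattices have covolumes bounded below.** -/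
theorem low_int (hd : 0 < d) (e : ℕ) {V ν : ℝ} (hV : 0 < V) (hν : 0 < ν) :
    ∃ c₀ : ℝ, 0 ≤ c₀ ∧ ∀ g : Matrix (Fin d) (Fin d) ℝ, |g.det| = V → HasNu g ν →
      ∀ P : Fin e → Fin d → ℤ, LinearIndependent ℝ (fun k => iR (P k)) → Low (ym g P) c₀ := by
  classical
  obtain ⟨R, hR⟩ := exists_bound hd V ν hV hν
  set G₀ : ℝ := max (V⁻¹ * (d.factorial * (max R 1) ^ d)) 1 with hG₀
  have hG₀1 : 1 ≤ G₀ := le_max_right _ _
  have hdR : (1 : ℝ) ≤ d := by exact_mod_cast hd
  set D : ℝ := (d : ℝ) ^ e * G₀ ^ e with hD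
  have hD1 : 1 ≤ D := one_le_mul_of_one_le_of_one_le (one_le_pow₀ hdR) (one_le_pow₀ hG₀1)
  refine ⟨Real.log D, Real.log_nonneg hD1, fun g hgV hnu P hP u hu => ?_⟩
  have hu1 : ∏ i, Real.exp (-u i) = 1 := by
    rw [← Real.exp_sum, sum_neg_distrib, hu, neg_zero, Real.exp_zero]
  set g1 : Matrix (Fin d) (Fin d) ℝ := diagonal (fun i => Real.exp (-u i)) * g with hg1
  have hg1V : |g1.det| = V := by rw [hg1, det_mul, det_diagonal, hu1, one_mul]; exact hgV
  have hg1nu : HasNu g1 ν := fun m hm => by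
    rw [hg1, FF_diag_mul, hu1, one_mul]
    exact hnu m hm
  obtain ⟨γ, hγ, hγR⟩ := hR g1 hg1V hg1nu
  set g2 : Matrix (Fin d) (Fin d) ℝ := g1 * zR γ with hg2
  have hg2V : |g2.det| = V := by
    rw [hg2, det_mul, abs_mul, det_zR, abs_det_of_isUnit hγ, mul_one]
    exact hg1V
  have hg2u : IsUnit g2.det := by
    rw [isUnit_iff_ne_zero]
    intro h0
    rw [h0, abs_zero] at hg2V
    exact hV.ne hg2V
  have hinv : ∀ i j, |g2⁻¹ i j| ≤ G₀ := by
    intro i j
    have h1 := Pool.Agent.N759.NV.inv_bound g2 hγR i j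
    rw [hg2V] at h1
    exact h1.trans (le_max_left _ _)
  -- the integer matrix
  set N : Matrix (Fin d) (Fin e) ℤ := fun i k => (γ⁻¹ *ᵥ P k) i with hN
  set Nr : Matrix (Fin d) (Fin e) ℝ := fun i k => ((γ⁻¹ *ᵥ P k) i : ℝ) with hNr
  set Y' : Matrix (Fin d) (Fin e) ℝ := scl (ym g P) u with hY'
  have hNY : Nr = g2⁻¹ * Y' := by
    ext i k
    have h2 : g1 *ᵥ iR (P k) = g2 *ᵥ iR (γ⁻¹ *ᵥ P k) := by
      rw [hg2, ← mulVec_mulVec (iR (γ⁻¹ *ᵥ P k)) g1 (zR γ), zR_mulVec_iR,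
        mulVec_mulVec (P k) γ γ⁻¹, Matrix.mul_nonsing_inv _ hγ, one_mulVec]
    have h3 : (fun j => Y' j k) = g1 *ᵥ iR (P k) := by
      funext j
      rw [hg1, ← mulVec_mulVec, mulVec_diagonal]
      rfl
    have h4 : (g2⁻¹ * Y') i k = (g2⁻¹ *ᵥ (fun j => Y' j k)) i := rfl
    rw [h4, h3, h2, mulVec_mulVec, Matrix.nonsing_inv_mul _ hg2u, one_mulVec]
    rfl
  have hNker : ∀ m : Fin e → ℝ, Nr *ᵥ m = 0 → m = 0 := by
    intro m hm
    have h1 : ∑ k, m k • iR (γ⁻¹ *ᵥ P k) = 0 := by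
      funext i
      have h2 : ∑ k, Nr i k * m k = 0 := congrFun hm i
      rw [Finset.sum_apply]
      refine Eq.trans ?_ h2
      exact sum_congr rfl fun k _ => mul_comm _ _
    have h3 : ∑ k, m k • iR (P k) = 0 := by
      have h4 : ∀ k, iR (P k) = zR γ *ᵥ iR (γ⁻¹ *ᵥ P k) := by
        intro k
        rw [zR_mulVec_iR, mulVec_mulVec, Matrix.mul_nonsing_inv _ hγ, one_mulVec]
      have h5 : ∑ k, m k • iR (P k) = zR γ *ᵥ ∑ k, m k • iR (γ⁻¹ *ᵥ P k) := by
        rw [mulVec_sum]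
        refine sum_congr rfl fun k _ => ?_
        rw [mulVec_smul, ← h4]
      rw [h5, h1, mulVec_zero]
    funext k
    exact Fintype.linearIndependent_iff.1 hP m h3 k
  obtain ⟨J, hJ⟩ := Pool.Agent.N759.WP.exists_minor Nr hNker
  have hJ1 : 1 ≤ |(Nr.submatrix J id).det| := by
    have h1 : (Nr.submatrix J id).det = (((N.submatrix J id).det : ℤ) : ℝ) := by
      have h2 := (Int.castRingHom ℝ).map_det (N.submatrix J id)
      rw [RingHom.mapMatrix_apply] at h2
      have h3 : (N.submatrix J id).map (Int.castRingHom ℝ) = Nr.submatrix J id := by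
        ext i k
        rfl
      rw [h3] at h2
      exact h2.symm
    rw [h1] at hJ ⊢
    have h4 : (N.submatrix J id).det ≠ 0 := by exact_mod_cast hJ
    have h5 : 1 ≤ |(N.submatrix J id).det| := Int.one_le_abs h4
    exact_mod_cast h5
  have hexp : (Nr.submatrix J id).det = ∑ r : Fin e → Fin d,
      (∏ j, (g2⁻¹.submatrix J id) j (r j)) * mnr Y' r := by
    rw [← det_mul_expand]
    congr 1
    rw [hNY]
    rfl
  by_contra hcon
  push Not at hcon
  have hD0 : 0 < D := by linarith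
  have hlt : ∀ r : Fin e → Fin d, |mnr Y' r| < D⁻¹ := by
    intro r
    have h1 := hcon r
    have h2 : Real.exp (-Real.log D) = D⁻¹ := by rw [Real.exp_neg, Real.exp_log hD0]
    rw [h2] at h1
    rw [hY', mnr_scale, abs_mul, abs_of_pos (Real.exp_pos _)]
    exact h1
  have hne : (univ : Finset (Fin e → Fin d)).Nonempty := ⟨fun _ => ⟨0, hd⟩, mem_univ _⟩
  have h1 : |(Nr.submatrix J id).det| < ∑ _r : Fin e → Fin d, G₀ ^ e * D⁻¹ := by
    rw [hexp]
    refine (abs_sum_le_sum_abs _ _).trans_lt (sum_lt_sum_of_nonempty hne fun r _ => ?_)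
    rw [abs_mul, abs_prod]
    have h2 : ∏ j, |(g2⁻¹.submatrix J id) j (r j)| ≤ G₀ ^ e := by
      calc ∏ j, |(g2⁻¹.submatrix J id) j (r j)| ≤ ∏ _j : Fin e, G₀ :=
            prod_le_prod (fun _ _ => abs_nonneg _) fun j _ => hinv _ _
        _ = G₀ ^ e := by rw [prod_const, card_univ, Fintype.card_fin]
    calc (∏ j, |(g2⁻¹.submatrix J id) j (r j)|) * |mnr Y' r| ≤ G₀ ^ e * |mnr Y' r| :=
          mul_le_mul_of_nonneg_right h2 (abs_nonneg _)
      _ < G₀ ^ e * D⁻¹ := mul_lt_mul_of_pos_left (hlt r) (by positivity)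
  rw [sum_const, card_univ, Fintype.card_fun, Fintype.card_fin, Fintype.card_fin,
    nsmul_eq_mul] at h1
  push_cast at h1
  rw [← mul_assoc, ← hD, mul_inv_cancel₀ hD0.ne'] at h1
  linarith

end Pool.Agent.K6.H9.SV
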