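import Mathlib
import Pool.Agent.N759.FV.SmallPt
import Pool.Agent.N759.FV.Trop

/-! # Many small points in every parallelepiped -/

namespace Pool.Agent.K6.H9.SV

open Filter Topology Matrix H715R2
open Pool.Agent.W777.FV Pool.Agent.N759.UC Finset
open Pool.Agent.N759.FV (gpos sum_gpos small_point)

lemma abs_gpos_le {r : ℕ} (D : ℝ) (hD : 0 ≤ D) (K : ℕ) (k : Fin r → Fin (K + 1))
    (i : Fin (r + 1)) : |gpos D (fun j => ((k j : ℕ) : ℝ)) i| ≤ D * ((r + 1 : ℕ) : ℝ) * K := by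
  have hk : ∀ j, ((k j : ℕ) : ℝ) ≤ K := fun j => by exact_mod_cast Nat.lt_succ_iff.1 (k j).2
  have hK0 : (0 : ℝ) ≤ K := Nat.cast_nonneg _
  refine Fin.lastCases ?_ (fun j => ?_) i
  · simp only [gpos, Fin.snoc_last, abs_neg]
    have h0 : 0 ≤ ∑ j : Fin r, D * ((k j : ℕ) : ℝ) :=
      sum_nonneg fun j _ => mul_nonneg hD (Nat.cast_nonneg _)
    rw [abs_of_nonneg h0]
    have h1 : ∑ j : Fin r, D * ((k j : ℕ) : ℝ) ≤ ∑ _j : Fin r, D * K :=
      sum_le_sum fun j _ => mul_le_mul_of_nonneg_left (hk j) hD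
    rw [sum_const, card_univ, Fintype.card_fin, nsmul_eq_mul] at h1
    push_cast
    nlinarith [mul_nonneg hD hK0]
  · simp only [gpos, Fin.snoc_castSucc]
    rw [abs_of_nonneg (mul_nonneg hD (Nat.cast_nonneg _))]
    have h1 := mul_le_mul_of_nonneg_left (hk j) hD
    push_cast
    have h2 : 0 ≤ D * K * r := by positivity
    nlinarith

/-- **Many small points.** -/
theorem many_small {r : ℕ} {V ν T : ℝ} (hV : 0 < V) (hν : 0 < ν)
    (hT : ∀ h : Matrix (Fin (r + 1)) (Fin (r + 1)) ℝ, |h.det| = V →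
      ∃ m : Fin (r + 1) → ℤ, m ≠ 0 ∧ |FF h (iR m)| < T) :
    ∃ c : ℝ, 0 < c ∧ ∃ x₀ : ℝ, ∀ g : Matrix (Fin (r + 1)) (Fin (r + 1)) ℝ, |g.det| = V →
      HasNu g ν → ∀ x : ℝ, x₀ ≤ x → ∃ S : Finset (Fin (r + 1) → ℤ), c * x ^ r ≤ S.card ∧
        ∀ p ∈ S, p ≠ 0 ∧ |FF g (iR p)| < T ∧ ∀ i, |(g *ᵥ iR p) i| ≤ Real.exp x := by
  classical
  obtain ⟨N₀, hN₀, hpt⟩ := small_point (Nat.succ_pos r) hV hν hT
  set n₀ : ℝ := |Real.log N₀| with hn₀
  have hn₀0 : 0 ≤ n₀ := abs_nonneg _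
  set R : ℝ := |Real.log ν| + (r + 1) * n₀ with hR
  have hR0 : 0 ≤ R := by positivity
  set D : ℝ := 2 * R + 1 with hD
  have hD0 : 0 < D := by positivity
  set E : ℝ := D * ((r + 1 : ℕ) : ℝ) with hE
  have hE0 : 0 < E := by positivity
  refine ⟨(1 / (2 * E)) ^ r, by positivity, 2 * n₀ + 1, fun g hgV hnu x hx => ?_⟩
  have hx0 : 0 < x := by linarith
  set K : ℕ := ⌊(x - n₀) / E⌋₊ with hK
  have hKx : E * K ≤ x - n₀ := by
    have h1 : (K : ℝ) ≤ (x - n₀) / E := Nat.floor_le (div_nonneg (by linarith) hE0.le)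
    rw [le_div_iff₀ hE0] at h1
    linarith
  have hKx2 : x / (2 * E) ≤ (K : ℝ) + 1 := by
    have h1 : (x - n₀) / E < (K : ℝ) + 1 := Nat.lt_floor_add_one _
    refine le_trans ?_ h1.le
    rw [div_le_div_iff₀ (by positivity) hE0]
    nlinarith
  -- positions
  set b : (Fin r → Fin (K + 1)) → Fin (r + 1) → ℝ := fun k =>
    gpos D (fun j => ((k j : ℕ) : ℝ)) with hb
  have hbsum : ∀ k, ∑ i, b k i = 0 := fun k => sum_gpos _ _
  have hbabs : ∀ k i, |b k i| ≤ E * K := fun k i => abs_gpos_le D hD0.le K k i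
  have hex : ∀ k : Fin r → Fin (K + 1), ∃ p : Fin (r + 1) → ℤ, p ≠ 0 ∧
      (∀ i, |(g *ᵥ iR p) i| ≤ N₀ * Real.exp (b k i)) ∧ |FF g (iR p)| < T := by
    intro k
    have h1 : ∏ i, Real.exp (-b k i) = 1 := by
      rw [← Real.exp_sum, sum_neg_distrib, hbsum, neg_zero, Real.exp_zero]
    obtain ⟨p, hp0, hpN, hpT⟩ := hpt (diagonal (fun i => Real.exp (-b k i)) * g)
      (by rw [det_mul, det_diagonal, h1, one_mul]; exact hgV)
      (fun q hq => by rw [FF_diag_mul, h1, one_mul]; exact hnu q hq)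
    refine ⟨p, hp0, fun i => ?_, ?_⟩
    · have h2 := hpN i
      rw [← mulVec_mulVec, mulVec_diagonal, abs_mul, abs_of_pos (Real.exp_pos _),
        Real.exp_neg, inv_mul_le_iff₀ (Real.exp_pos _)] at h2
      linarith
    · rwa [FF_diag_mul, h1, one_mul] at hpT
  choose P hP0 hPN hPT using hex
  have hy0 : ∀ k i, (g *ᵥ iR (P k)) i ≠ 0 := by
    intro k i h0
    have h1 := hnu (P k) (hP0 k)
    rw [FF_eq, Finset.prod_eq_zero (Finset.mem_univ i) h0, abs_zero] at h1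
    linarith
  have hup : ∀ k i, Real.log |(g *ᵥ iR (P k)) i| ≤ b k i + n₀ := by
    intro k i
    have h1 := Real.log_le_log (abs_pos.2 (hy0 k i)) (hPN k i)
    rw [Real.log_mul hN₀.ne' (Real.exp_pos _).ne', Real.log_exp] at h1
    linarith [le_abs_self (Real.log N₀)]
  have hsum : ∀ k, Real.log ν ≤ ∑ i, Real.log |(g *ᵥ iR (P k)) i| := by
    intro k
    rw [← Real.log_prod fun i _ => abs_ne_zero.2 (hy0 k i), ← Finset.abs_prod, ← FF_eq]
    exact Real.log_le_log hν (hnu _ (hP0 k))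
  have hlow : ∀ k i, b k i - R ≤ Real.log |(g *ᵥ iR (P k)) i| := by
    intro k i
    have h1 := hsum k
    have h2 := hbsum k
    rw [← Finset.add_sum_erase Finset.univ _ (Finset.mem_univ i)] at h1 h2
    have h3 : ∑ j ∈ Finset.univ.erase i, Real.log |(g *ᵥ iR (P k)) j| ≤
        ∑ j ∈ Finset.univ.erase i, (b k j + n₀) := Finset.sum_le_sum fun j _ => hup k j
    rw [sum_add_distrib, Finset.sum_const, Finset.card_erase_of_mem (Finset.mem_univ i),
      Finset.card_univ, Fintype.card_fin, Nat.add_sub_cancel, nsmul_eq_mul] at h3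
    have h4 : (r : ℝ) * n₀ ≤ (r + 1) * n₀ := by nlinarith
    linarith [neg_abs_le (Real.log ν)]
  have hinj : Function.Injective P := by
    intro k k' hkk
    funext j
    have h1 := hup k j.castSucc
    have h2 := hlow k' j.castSucc
    have h3 := hup k' j.castSucc
    have h4 := hlow k j.castSucc
    rw [hkk] at h1 h4
    simp only [hb, gpos, Fin.snoc_castSucc] at h1 h2 h3 h4
    have hn₀R : n₀ ≤ R := by
      have h5 : 0 ≤ (r : ℝ) * n₀ := by positivity
      have h6 := abs_nonneg (Real.log ν)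
      rw [hR]
      linarith
    have h5 : |(((k j : ℕ) : ℤ) - ((k' j : ℕ) : ℤ) : ℤ)| < 1 := by
      have h6 : |D * (((k j : ℕ) : ℝ) - ((k' j : ℕ) : ℝ))| < D := by
        rw [abs_lt]
        constructor <;> linarith
      rw [abs_mul, abs_of_pos hD0] at h6
      have h7 : |(((k j : ℕ) : ℝ) - ((k' j : ℕ) : ℝ))| < 1 := by
        by_contra hcon
        have := mul_le_mul_of_nonneg_left (not_lt.1 hcon) hD0.le
        linarith
      exact_mod_cast h7
    have h6 := Int.abs_lt_one_iff.1 h5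
    exact Fin.ext (by omega)
  refine ⟨univ.image P, ?_, ?_⟩
  · rw [card_image_of_injective _ hinj, card_univ, Fintype.card_fun, Fintype.card_fin,
      Fintype.card_fin]
    push_cast
    rw [← mul_pow]
    refine pow_le_pow_left₀ (by positivity) ?_ _
    have : 1 / (2 * E) * x = x / (2 * E) := by ring
    rw [this]
    exact hKx2
  · intro p hp
    obtain ⟨k, -, rfl⟩ := mem_image.1 hp
    refine ⟨hP0 k, hPT k, fun i => ?_⟩
    have h1 := hup k i
    rw [Real.log_le_iff_le_exp (abs_pos.2 (hy0 k i))] at h1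
    refine h1.trans (Real.exp_le_exp.2 ?_)
    linarith [(abs_le.1 (hbabs k i)).2]

end Pool.Agent.K6.H9.SV
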