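import Mathlib
import Pool.Agent.K6.H9.SV.Core
import Pool.Agent.K6.H9.SV.Lower

/-! # Small points and subvarieties of every dimension -/

namespace Pool.Agent.K6.H9.SV

open Filter Topology Matrix H715R2
open Pool.Agent.W777.FV Pool.Agent.N759.UC Finset
open Pool.Agent.N759.FV (Mon ex mo mo_injective exists_mo ex_injective sum_ex eval_homog)

/-- **Nearly related small points in a parallelepiped.** -/
theorem near_related {d : ℕ} (e : ℕ) (hd : 0 < d) (t : ℕ) {V ν Λ θ : ℝ} (hV : 0 < V)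
    (hν : 0 < ν) (hθ0 : 0 ≤ θ) (hθ : θ < 1) :
    ∃ C : ℝ, 0 < C ∧ ∀ g : Matrix (Fin d) (Fin d) ℝ, |g.det| = V → HasNu g ν →
      ∀ x : ℝ, 1 ≤ x → ∀ a : Fin d → ℝ, (∀ i, 0 < a i) → ∏ i, a i = 1 →
      ∀ R : (Fin (e + 1) → Fin d) → MvPolynomial (Fin (e + 1)) ℝ,
      (∀ J, Function.Injective J → (R J).IsHomogeneous t ∧ R J ≠ 0) →
      ∀ S : Finset (Fin d → ℤ), (∀ p ∈ S, p ≠ 0 ∧ |FF g (iR p)| ≤ Λ ∧
        ∀ i, |a i * (g *ᵥ iR p) i| ≤ Real.exp x) →
      (∀ p ∈ S, ∀ J, Function.Injective J → ∃ m : Fin (e + 1) →₀ ℕ,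
        |MvPolynomial.eval (fun i => (g *ᵥ iR p) (J i)) (R J)| ≤
          θ * |MvPolynomial.coeff m (R J) * ∏ i, (g *ᵥ iR p) (J i) ^ m i|) →
      (S.card : ℝ) ≤ C * x ^ (e - 1) := by
  classical
  obtain ⟨C, hC, H⟩ := small_points_core (e := e) (Λ := Λ) hd t hV hν hθ0 hθ
  refine ⟨C, hC, fun g hgV hnu x hx a ha0 ha1 R hR S hS hSR => ?_⟩
  have hagp : ∀ p : Fin d → ℤ, ∀ i,
      ((diagonal a * g) *ᵥ iR p) i = a i * (g *ᵥ iR p) i := fun p i => by
    rw [← mulVec_mulVec, mulVec_diagonal]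
  set h : (Fin (e + 1) → Fin d) → Mon (e + 1) t → ℝ := fun J b =>
    MvPolynomial.coeff (mo b) (R J) * ∏ i, ((a (J i))⁻¹) ^ ex b i with hh
  have hterm : ∀ J b p, h J b * ∏ i, (a (J i) * (g *ᵥ iR p) (J i)) ^ ex b i =
      MvPolynomial.coeff (mo b) (R J) * ∏ i, (g *ᵥ iR p) (J i) ^ ex b i := by
    intro J b p
    rw [hh]
    simp only
    rw [mul_assoc, ← prod_mul_distrib]
    congr 1
    refine prod_congr rfl fun i _ => ?_
    rw [← mul_pow, ← mul_assoc, inv_mul_cancel₀ (ha0 _).ne', one_mul]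
  refine H (diagonal a * g) ?_ ?_ x hx h ?_ S ?_
  · rw [Matrix.det_mul, Matrix.det_diagonal, ha1, one_mul]
    exact hgV
  · intro m hm
    rw [FF_diag_mul, ha1, one_mul]
    exact hnu m hm
  · intro J hJ h0
    obtain ⟨hJh, hJ0⟩ := hR J hJ
    apply hJ0
    ext m
    rw [MvPolynomial.coeff_zero]
    by_contra hm
    have h4 := hJh hm
    have h5 : ∑ i, m i = t := by
      rw [← h4, Finsupp.weight_apply, Finsupp.sum_fintype]
      · simp
      · simp
    obtain ⟨b, rfl⟩ := exists_mo m h5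
    have h6 := congrFun h0 b
    simp only [hh, Pi.zero_apply] at h6
    rcases mul_eq_zero.1 h6 with h7 | h7
    · exact hm h7
    · exact (prod_ne_zero_iff.2 fun i _ => pow_ne_zero _ (inv_ne_zero (ha0 (J i)).ne')) h7
  · intro p hp
    obtain ⟨h1, h2, h3⟩ := hS p hp
    refine ⟨h1, ?_, fun i => ?_, fun J hJ => ?_⟩
    · rw [FF_diag_mul, ha1, one_mul]
      exact h2
    · rw [hagp]
      exact h3 i
    · obtain ⟨m, hm⟩ := hSR p hp J hJ
      simp only [hagp]
      have he : MvPolynomial.eval (fun i => (g *ᵥ iR p) (J i)) (R J) =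
          ∑ b : Mon (e + 1) t, h J b * ∏ i, (a (J i) * (g *ᵥ iR p) (J i)) ^ ex b i := by
        rw [eval_homog (hR J hJ).1]
        exact sum_congr rfl fun b _ => (hterm J b p).symm
      rw [he] at hm
      by_cases hm0 : MvPolynomial.coeff m (R J) = 0
      · obtain ⟨b⟩ : Nonempty (Mon (e + 1) t) := by
          rw [← Fintype.card_pos_iff, card_Mon_succ]
          exact Nat.choose_pos (by omega)
        refine ⟨b, hm.trans ?_⟩
        rw [hm0, zero_mul, abs_zero, mul_zero]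
        exact mul_nonneg hθ0 (abs_nonneg _)
      · have h4 := (hR J hJ).1 hm0
        have h5 : ∑ i, m i = t := by
          rw [← h4, Finsupp.weight_apply, Finsupp.sum_fintype]
          · simp
          · simp
        obtain ⟨b, rfl⟩ := exists_mo m h5
        refine ⟨b, ?_⟩
        rw [hterm]
        exact hm

/-- **The Hilbert function of the small points.** -/
theorem hilb_growth {d : ℕ} (e : ℕ) (hd : 0 < d) (t : ℕ) {V ν Λ : ℝ} (hV : 0 < V) (hν : 0 < ν) :
    ∃ C : ℝ, 0 < C ∧ ∀ g : Matrix (Fin d) (Fin d) ℝ, |g.det| = V → HasNu g ν →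
      ∀ x : ℝ, 1 ≤ x → ∀ a : Fin d → ℝ, (∀ i, 0 < a i) → ∏ i, a i = 1 →
      ∀ S : Finset (Fin d → ℤ), (∀ p ∈ S, p ≠ 0 ∧ |FF g (iR p)| ≤ Λ ∧
        ∀ i, |a i * (g *ᵥ iR p) i| ≤ Real.exp x) → C * x ^ (e - 1) < (S.card : ℝ) →
      (t + e).choose e ≤ hilb t S := by
  classical
  obtain ⟨C, hC, H⟩ := small_points_core (e := e) (Λ := Λ) hd t hV hν le_rfl zero_lt_one
  refine ⟨C, hC, fun g hgV hnu x hx a ha0 ha1 S hS hcard => ?_⟩
  by_contra hcon
  have hagp : ∀ p : Fin d → ℤ, ∀ i,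
      ((diagonal a * g) *ᵥ iR p) i = a i * (g *ᵥ iR p) i := fun p i => by
    rw [← mulVec_mulVec, mulVec_diagonal]
  choose h hh0 hh using fun J => exists_relation (diagonal a * g) S (not_le.1 hcon) J
  refine absurd (H (diagonal a * g) ?_ ?_ x hx h (fun J _ => hh0 J) S ?_) (not_le.2 hcard)
  · rw [Matrix.det_mul, Matrix.det_diagonal, ha1, one_mul]
    exact hgV
  · intro m hm
    rw [FF_diag_mul, ha1, one_mul]
    exact hnu m hm
  · intro p hp
    obtain ⟨h1, h2, h3⟩ := hS p hp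
    refine ⟨h1, ?_, fun i => ?_, fun J _ => ?_⟩
    · rw [FF_diag_mul, ha1, one_mul]
      exact h2
    · rw [hagp]
      exact h3 i
    · obtain ⟨b⟩ : Nonempty (Mon (e + 1) t) := by
        rw [← Fintype.card_pos_iff, card_Mon_succ]
        exact Nat.choose_pos (by omega)
      refine ⟨b, ?_⟩
      rw [hh J p hp, abs_zero, zero_mul]

/-- the coefficients of a polynomial span a finite-dimensional space -/
lemma finite_coeffs (K : Type) [Field K] [Algebra K ℝ] {d : ℕ} (P : MvPolynomial (Fin d) ℝ) :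
    FiniteDimensional K (Submodule.span K (Set.range fun m => MvPolynomial.coeff m P)) := by
  classical
  refine FiniteDimensional.span_of_finite K (Set.Finite.subset
    ((P.support.image fun m => MvPolynomial.coeff m P) ∪ {0} : Finset ℝ).finite_toSet ?_)
  rintro _ ⟨m, rfl⟩
  by_cases hm : MvPolynomial.coeff m P = 0
  · simp [hm]
  · rw [coe_union, Set.mem_union]
    left
    rw [mem_coe, mem_image]
    exact ⟨m, MvPolynomial.mem_support_iff.2 hm, rfl⟩

/-- the rank modulo a line -/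
lemma rank_mod_line (K : Type) [Field K] [Algebra K ℝ] {d : ℕ} (P : MvPolynomial (Fin d) ℝ)
    (w : ℝ) :
    Module.finrank K (Submodule.span K (Set.range fun m => MvPolynomial.coeff m P)) ≤
      Module.finrank K (Submodule.span K (Set.range fun m : Fin d →₀ ℕ =>
        (Submodule.span K {w}).mkQ (MvPolynomial.coeff m P))) + 1 := by
  classical
  set U := Submodule.span K (Set.range fun m => MvPolynomial.coeff m P) with hU
  set W : Submodule K ℝ := Submodule.span K {w} with hW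
  have hfin : FiniteDimensional K U := finite_coeffs K P
  have h1 : Submodule.span K (Set.range fun m : Fin d →₀ ℕ => W.mkQ (MvPolynomial.coeff m P)) =
      U.map W.mkQ := by
    rw [hU, Submodule.map_span, ← Set.range_comp]
    rfl
  rw [h1]
  have h2 := LinearMap.finrank_range_add_finrank_ker (W.mkQ.domRestrict U)
  rw [LinearMap.range_domRestrict] at h2
  have h3 : Module.finrank K (LinearMap.ker (W.mkQ.domRestrict U)) ≤ Module.finrank K W := by
    have hmem : ∀ v : LinearMap.ker (W.mkQ.domRestrict U), (v.1.1 : ℝ) ∈ W := by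
      intro v
      have h4 := LinearMap.mem_ker.1 v.2
      exact (Submodule.Quotient.mk_eq_zero W).1 h4
    set ι : LinearMap.ker (W.mkQ.domRestrict U) →ₗ[K] W :=
      LinearMap.codRestrict W (U.subtype.comp (Submodule.subtype _)) hmem with hι
    have hinj : Function.Injective ι := by
      intro v v' hv
      have h5 : ((ι v : W) : ℝ) = ((ι v' : W) : ℝ) := by rw [hv]
      exact Subtype.ext (Subtype.ext h5)
    exact LinearMap.finrank_le_finrank_of_injective hinj
  have h4 : Module.finrank K W ≤ 1 := by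
    have h5 := finrank_span_le_card (R := K) ({w} : Set ℝ)
    simpa using h5
  omega

/-- **The number of classes of small values modulo a field.** -/
theorem many_classes {r e : ℕ} (he : 1 ≤ e) (her : e ≤ r + 1) {V ν T : ℝ} (hV : 0 < V) (hν : 0 < ν)
    (hT : ∀ h : Matrix (Fin (r + 1)) (Fin (r + 1)) ℝ, |h.det| = V →
      ∃ m : Fin (r + 1) → ℤ, m ≠ 0 ∧ |FF h (iR m)| < T) :
    ∃ c : ℝ, 0 < c ∧ ∃ x₀ : ℝ, ∀ g : Matrix (Fin (r + 1)) (Fin (r + 1)) ℝ, |g.det| = V →
      HasNu g ν → ∀ P : MvPolynomial (Fin (r + 1)) ℝ, P.IsHomogeneous (r + 1) →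
      (∀ p : Fin (r + 1) → ℤ, MvPolynomial.eval (fun i => (p i : ℝ)) P = FF g (iR p)) →
      ∀ (K : Type) [Field K] [Algebra K ℝ],
      (r + 1 + (r + 1) - 1).choose (r + 1) + 1 < Module.finrank K (Submodule.span K
        (Set.range fun m => MvPolynomial.coeff m P)) + (r + 1 + e).choose e →
      ∀ x : ℝ, x₀ ≤ x → ∀ a : Fin (r + 1) → ℝ, (∀ i, 0 < a i) → ∏ i, a i = 1 →
      ∃ S : Finset (Fin (r + 1) → ℤ), c * x ^ (r + 1 - e) ≤ S.card ∧
        (∀ p ∈ S, p ≠ 0 ∧ |FF g (iR p)| < T ∧ ∀ i, |a i * (g *ᵥ iR p) i| ≤ Real.exp x) ∧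
        ∀ p ∈ S, ∀ q ∈ S, p ≠ q → FF g (iR p) / FF g (iR q) ∉ Set.range (algebraMap K ℝ) := by
  classical
  obtain ⟨c, hc, x₀, hmany⟩ := many_small hV hν hT
  obtain ⟨C, hC, H⟩ := hilb_growth (Λ := T) e (Nat.succ_pos r) (r + 1) hV hν
  refine ⟨c / C, by positivity, max x₀ 1, fun g hgV hnu P hP hPe K _ _ hrank x hx a ha0 ha1 => ?_⟩
  have hx1 : 1 ≤ x := (le_max_right _ _).trans hx
  have hx0 : 0 < x := by linarith
  have hagp : ∀ p : Fin (r + 1) → ℤ, ∀ i,
      ((diagonal a * g) *ᵥ iR p) i = a i * (g *ᵥ iR p) i := fun p i => by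
    rw [← mulVec_mulVec, mulVec_diagonal]
  obtain ⟨S, hScard, hS⟩ := hmany (diagonal a * g)
    (by rw [Matrix.det_mul, Matrix.det_diagonal, ha1, one_mul]; exact hgV)
    (fun m hm => by rw [FF_diag_mul, ha1, one_mul]; exact hnu m hm) x ((le_max_left _ _).trans hx)
  have hS' : ∀ p ∈ S, p ≠ 0 ∧ |FF g (iR p)| < T ∧ ∀ i, |a i * (g *ᵥ iR p) i| ≤ Real.exp x := by
    intro p hp
    obtain ⟨h1, h2, h3⟩ := hS p hp
    refine ⟨h1, ?_, fun i => ?_⟩
    · rwa [FF_diag_mul, ha1, one_mul] at h2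
    · rw [← hagp]
      exact h3 i
  have hF0 : ∀ p ∈ S, FF g (iR p) ≠ 0 := by
    intro p hp h0
    have h1 := hnu p (hS p hp).1
    rw [h0, abs_zero] at h1
    linarith
  set f : (Fin (r + 1) → ℤ) → Submodule K ℝ := fun p => Submodule.span K {FF g (iR p)} with hf
  have hfib : ∀ b ∈ S.image f, (((S.filter fun p => f p = b).card : ℕ) : ℝ) ≤ C * x ^ (e - 1) := by
    intro b hb
    obtain ⟨q, hq, rfl⟩ := mem_image.1 hb
    by_contra hcon
    obtain ⟨Sq, hSq⟩ : ∃ Sq, Sq = S.filter fun p => f p = f q := ⟨_, rfl⟩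
    rw [← hSq] at hcon
    have h1 := H g hgV hnu x hx1 a ha0 ha1 Sq (fun p hp => by
      rw [hSq] at hp
      obtain ⟨h2, h3, h4⟩ := hS' p (mem_filter.1 hp).1
      exact ⟨h2, h3.le, h4⟩) (not_le.1 hcon)
    have h2 := rank_coeffs K Sq P hP (Submodule.span K {FF g (iR q)}) (fun p hp => by
      rw [hSq] at hp
      have h5 : f p = Submodule.span K {FF g (iR q)} := (mem_filter.1 hp).2
      rw [hPe, ← h5]
      exact Submodule.mem_span_singleton_self _)
    have h3 := rank_mod_line K P (FF g (iR q))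
    omega
  have himg : c * x ^ r ≤ (S.image f).card * (C * x ^ (e - 1)) := by
    refine hScard.trans ?_
    rw [card_eq_sum_card_image f S]
    push_cast
    calc ∑ b ∈ S.image f, ((S.filter fun p => f p = b).card : ℝ) ≤
        ∑ _b ∈ S.image f, C * x ^ (e - 1) := sum_le_sum hfib
      _ = _ := by rw [sum_const, nsmul_eq_mul]
  have hex : ∀ b ∈ S.image f, ∃ p ∈ S, f p = b := fun b hb => mem_image.1 hb
  choose! ρ hρ1 hρ2 using hex
  refine ⟨(S.image f).image ρ, ?_, ?_, ?_⟩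
  · rw [card_image_of_injOn]
    · have h1 : x ^ r = x ^ (r + 1 - e) * x ^ (e - 1) := by
        rw [← pow_add]
        congr 1
        omega
      rw [h1] at himg
      have h2 : 0 < x ^ (e - 1) := pow_pos hx0 _
      rw [div_mul_eq_mul_div, div_le_iff₀ hC]
      have h3 : c * x ^ (r + 1 - e) * x ^ (e - 1) ≤ ((S.image f).card * C) * x ^ (e - 1) := by
        linarith
      exact le_of_mul_le_mul_right h3 h2
    · intro b hb b' hb' h
      rw [← hρ2 b hb, ← hρ2 b' hb', h]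
  · intro p hp
    obtain ⟨b, hb, rfl⟩ := mem_image.1 hp
    exact hS' _ (hρ1 b hb)
  · intro p hp q hq hpq
    obtain ⟨b, hb, rfl⟩ := mem_image.1 hp
    obtain ⟨b', hb', rfl⟩ := mem_image.1 hq
    rintro ⟨s, hs⟩
    have h0 := hF0 _ (hρ1 b hb)
    have h0' := hF0 _ (hρ1 b' hb')
    have h1 : FF g (iR (ρ b)) = algebraMap K ℝ s * FF g (iR (ρ b')) := by
      rw [hs, div_mul_cancel₀ _ h0']
    have hs0 : s ≠ 0 := by
      rintro rfl
      rw [map_zero, zero_mul] at h1
      exact h0 h1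
    have h2 : f (ρ b) = f (ρ b') := by
      rw [hf]
      simp only
      rw [h1, ← Algebra.smul_def]
      exact Submodule.span_singleton_smul_eq (isUnit_iff_ne_zero.2 hs0) _
    rw [hρ2 b hb, hρ2 b' hb'] at h2
    exact hpq (by rw [h2])

end Pool.Agent.K6.H9.SV
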