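import Mathlib
import Pool.Agent.K6.H9.SV.Cov

/-! # Positions of small points -/

namespace Pool.Agent.K6.H9.SV

open Filter Topology Matrix H715R2
open Pool.Agent.W777.FV Pool.Agent.N759.UC Finset
open Pool.Agent.N759.FV (card_near)

variable {d e : ℕ}

/-- the position of a point -/
noncomputable def pos (g : Matrix (Fin d) (Fin d) ℝ) (p : Fin d → ℤ) : Fin d → ℝ := fun i =>
  Real.log |(g *ᵥ iR p) i| - Real.log |FF g (iR p)| / d

/-- small points -/
def Sm (g : Matrix (Fin d) (Fin d) ℝ) (Λ : ℝ) (p : Fin d → ℤ) : Prop :=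
  p ≠ 0 ∧ |FF g (iR p)| ≤ Λ

section
variable {g : Matrix (Fin d) (Fin d) ℝ} {ν Λ : ℝ} (hν : 0 < ν) (hnu : HasNu g ν)
include hν hnu

lemma FF_pos' {p : Fin d → ℤ} (hp : Sm g Λ p) : 0 < |FF g (iR p)| := hν.trans_le (hnu p hp.1)

lemma y_ne {p : Fin d → ℤ} (hp : Sm g Λ p) (i : Fin d) : (g *ᵥ iR p) i ≠ 0 := by
  intro h0
  have h1 := FF_pos' hν hnu hp
  rw [FF_eq, Finset.prod_eq_zero (Finset.mem_univ i) h0, abs_zero] at h1
  exact lt_irrefl _ h1

lemma sum_pos (hd : 0 < d) {p : Fin d → ℤ} (hp : Sm g Λ p) : ∑ i, pos g p i = 0 := by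
  have hd0 : (d : ℝ) ≠ 0 := by exact_mod_cast hd.ne'
  simp only [pos]
  rw [sum_sub_distrib, ← Real.log_prod fun i _ => abs_ne_zero.2 (y_ne hν hnu hp i),
    ← Finset.abs_prod, ← FF_eq, sum_const, card_univ, Fintype.card_fin, nsmul_eq_mul,
    mul_div_cancel₀ _ hd0, sub_self]

lemma log_F_le (hd : 0 < d) {p : Fin d → ℤ} (hp : Sm g Λ p) :
    |Real.log (abs (FF g (iR p))) / d| ≤ |Real.log ν| + |Real.log Λ| := by
  have hd1 : (1 : ℝ) ≤ d := by exact_mod_cast hd
  have h1 : Real.log ν ≤ Real.log |FF g (iR p)| := Real.log_le_log hν (hnu p hp.1)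
  have h2 : Real.log |FF g (iR p)| ≤ Real.log Λ := Real.log_le_log (FF_pos' hν hnu hp) hp.2
  have h3 : |Real.log (abs (FF g (iR p)))| ≤ |Real.log ν| + |Real.log Λ| := by
    rw [abs_le]
    constructor
    · linarith [neg_abs_le (Real.log ν), abs_nonneg (Real.log Λ)]
    · linarith [le_abs_self (Real.log Λ), abs_nonneg (Real.log ν)]
  rw [abs_div, abs_of_nonneg (by linarith : (0 : ℝ) ≤ d)]
  exact (div_le_self (abs_nonneg _) hd1).trans h3

lemma abs_y (p : Fin d → ℤ) (hp : Sm g Λ p) (i : Fin d) :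
    |(g *ᵥ iR p) i| = Real.exp (pos g p i + Real.log |FF g (iR p)| / d) := by
  rw [pos, sub_add_cancel, Real.exp_log (abs_pos.2 (y_ne hν hnu hp i))]

lemma abs_y_le (hd : 0 < d) {p : Fin d → ℤ} (hp : Sm g Λ p) (i : Fin d) :
    |(g *ᵥ iR p) i| ≤ Real.exp (pos g p i + (|Real.log ν| + |Real.log Λ|)) := by
  rw [abs_y hν hnu p hp i, Real.exp_le_exp]
  linarith [(abs_le.1 (log_F_le hν hnu hd hp)).2]

/-- minors of small points with nearby positions -/
lemma le_of_near (hd : 0 < d) (P : Fin e → Fin d → ℤ) (hP : ∀ k, Sm g Λ (P k)) (u : Fin d → ℝ)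
    (ρ : ℝ) (hu : ∀ k i, |pos g (P k) i - u i| ≤ ρ) :
    Le (ym g P) u (Real.log (e.factorial : ℝ) + e * (ρ + (|Real.log ν| + |Real.log Λ|))) := by
  intro r
  have hfac : (0 : ℝ) < (e.factorial : ℝ) := by exact_mod_cast e.factorial_pos
  have h1 : Real.exp (-su u r) * |mnr (ym g P) r| = |mnr (scl (ym g P) u) r| := by
    rw [mnr_scale, abs_mul, abs_of_pos (Real.exp_pos _)]
  rw [h1]
  have h2 := Matrix.det_le (A := (scl (ym g P) u).submatrix r id) (abv := AbsoluteValue.abs)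
    (x := Real.exp (ρ + (|Real.log ν| + |Real.log Λ|))) (fun i j => by
      show |Real.exp (-u (r i)) * (g *ᵥ iR (P j)) (r i)| ≤ _
      rw [abs_mul, abs_of_pos (Real.exp_pos _)]
      refine (mul_le_mul_of_nonneg_left (abs_y_le hν hnu hd (hP j) (r i))
        (Real.exp_pos _).le).trans ?_
      rw [← Real.exp_add, Real.exp_le_exp]
      have h3 := (abs_le.1 (hu j (r i))).2
      linarith)
  rw [Fintype.card_fin, nsmul_eq_mul] at h2
  refine h2.trans (le_of_eq ?_)
  rw [Real.exp_add (Real.log (e.factorial : ℝ)), Real.exp_log hfac, ← Real.exp_nat_mul]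

end

/-- **A bounded region contains boundedly many small points.** -/
theorem near_card (hd : 0 < d) {V ν Λ : ℝ} (hV : 0 < V) (hν : 0 < ν) (ρ : ℝ) :
    ∃ C₁ : ℕ, ∀ g : Matrix (Fin d) (Fin d) ℝ, |g.det| = V → HasNu g ν →
      ∀ T : Finset (Fin d → ℤ), (∀ p ∈ T, Sm g Λ p) →
      (∀ p ∈ T, ∀ q ∈ T, ∀ i, |pos g p i - pos g q i| ≤ ρ) → T.card ≤ C₁ := by
  classical
  obtain ⟨C₁, hC₁⟩ := card_near hd hV hν (Real.exp (ρ + (|Real.log ν| + |Real.log Λ|)))
    (Real.exp_pos _).le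
  refine ⟨C₁, fun g hgV hnu T hT hTρ => ?_⟩
  rcases T.eq_empty_or_nonempty with hTe | ⟨q, hq⟩
  · rw [hTe, card_empty]
    exact Nat.zero_le _
  have h1 : ∏ i, Real.exp (-pos g q i) = 1 := by
    rw [← Real.exp_sum, sum_neg_distrib, sum_pos hν hnu hd (hT q hq), neg_zero, Real.exp_zero]
  refine hC₁ (diagonal (fun i => Real.exp (-pos g q i)) * g) ?_ ?_ T fun p hp i => ?_
  · rw [det_mul, det_diagonal, h1, one_mul]
    exact hgV
  · intro m hm
    rw [FF_diag_mul, h1, one_mul]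
    exact hnu m hm
  · rw [← mulVec_mulVec, mulVec_diagonal, abs_mul, abs_of_pos (Real.exp_pos _)]
    refine (mul_le_mul_of_nonneg_left (abs_y_le hν hnu hd (hT p hp) i)
      (Real.exp_pos _).le).trans ?_
    rw [← Real.exp_add, Real.exp_le_exp]
    have h3 := (abs_le.1 (hTρ p hp q hq i)).2
    linarith

/-- proportional points have the same position -/
lemma pos_eq (hd : 0 < d) {g : Matrix (Fin d) (Fin d) ℝ} {ν Λ : ℝ} (hν : 0 < ν)
    (hnu : HasNu g ν) {p q : Fin d → ℤ} (hp : Sm g Λ p) (hq : Sm g Λ q) {s : ℝ}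
    (hs : iR p = s • iR q) : pos g p = pos g q := by
  have hs0 : s ≠ 0 := by
    rintro rfl
    have h1 := y_ne hν hnu hp ⟨0, hd⟩
    rw [hs, zero_smul, mulVec_zero] at h1
    exact h1 rfl
  have hd0 : (d : ℝ) ≠ 0 := by exact_mod_cast hd.ne'
  funext i
  have h1 : (g *ᵥ iR p) i = s * (g *ᵥ iR q) i := by
    rw [hs, mulVec_smul]
    rfl
  have h2 : FF g (iR p) = s ^ d * FF g (iR q) := by
    rw [FF_eq, FF_eq, hs, mulVec_smul]
    simp only [Pi.smul_apply, smul_eq_mul]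
    rw [Finset.prod_mul_distrib, prod_const, card_univ, Fintype.card_fin]
  have h3 := FF_pos' hν hnu hq
  rw [pos, pos, h1, h2, abs_mul, abs_mul, Real.log_mul (abs_ne_zero.2 hs0)
    (abs_ne_zero.2 (y_ne hν hnu hq i)), Real.log_mul (abs_ne_zero.2 (pow_ne_zero _ hs0)) h3.ne',
    abs_pow, Real.log_pow, add_div, mul_div_cancel_left₀ _ hd0]
  ring

/-- no `n` of the points are linearly independent -/
def NoInd (T : Finset (Fin d → ℤ)) (n : ℕ) : Prop :=
  ∀ P : Fin n → Fin d → ℤ, (∀ k, P k ∈ T) → ¬ LinearIndependent ℝ (fun k => iR (P k))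

lemma NoInd.mono {T T' : Finset (Fin d → ℤ)} {n : ℕ} (h : NoInd T n) (hT : T' ⊆ T) : NoInd T' n :=
  fun P hP => h P fun k => hT (hP k)

/-- two maximal independent families have proportional minors -/
lemma prop_minors (hd : 0 < d) {g : Matrix (Fin d) (Fin d) ℝ} {c : ℝ}
    {T : Finset (Fin d → ℤ)} (hT : NoInd T (e + 1)) {P P' : Fin e → Fin d → ℤ}
    (hP : LinearIndependent ℝ (fun k => iR (P k))) (hPT : ∀ k, P k ∈ T) (hPT' : ∀ k, P' k ∈ T)
    (hlow : Low (ym g P') c) :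
    ∃ α : ℝ, α ≠ 0 ∧ ∀ r, mnr (ym g P') r = mnr (ym g P) r * α := by
  classical
  have _ := hd
  have hspan : ∀ k, ∃ A : Fin e → ℝ, ∑ l, A l • iR (P l) = iR (P' k) := by
    intro k
    have h1 : ¬ LinearIndependent ℝ (Fin.cons (iR (P' k)) (fun l => iR (P l)) :
        Fin (e + 1) → Fin d → ℝ) := by
      have h2 := hT (Fin.cons (P' k) P) (fun l => by
        refine Fin.cases ?_ (fun l => ?_) l
        · exact hPT' k
        · exact hPT l)
      have h3 : (fun l => iR ((Fin.cons (P' k) P : Fin (e + 1) → Fin d → ℤ) l)) =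
          (Fin.cons (iR (P' k)) (fun l => iR (P l)) : Fin (e + 1) → Fin d → ℝ) := by
        funext l
        refine Fin.cases ?_ (fun l => ?_) l
        · rfl
        · rfl
      rwa [h3] at h2
    rw [linearIndependent_finCons] at h1
    push Not at h1
    have h2 := h1 hP
    exact (Submodule.mem_span_range_iff_exists_fun ℝ).1 h2
  choose A hA using hspan
  set B : Matrix (Fin e) (Fin e) ℝ := fun l k => A k l with hB
  have hYB : ym g P' = ym g P * B := by
    ext i k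
    have h1 : (g *ᵥ iR (P' k)) i = ∑ l, A k l * (g *ᵥ iR (P l)) i := by
      rw [← hA k, mulVec_sum, Finset.sum_apply]
      refine sum_congr rfl fun l _ => ?_
      rw [mulVec_smul]
      rfl
    rw [Matrix.mul_apply]
    refine h1.trans (sum_congr rfl fun l _ => ?_)
    rw [mul_comm]
    rfl
  have hm : ∀ r, mnr (ym g P') r = mnr (ym g P) r * B.det := by
    intro r
    have h1 : (ym g P * B).submatrix r id = (ym g P).submatrix r id * B := by
      ext i k
      rfl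
    rw [hYB, mnr, h1, det_mul]
    rfl
  refine ⟨B.det, ?_, hm⟩
  intro h0
  obtain ⟨r, hr⟩ := hlow 0 (by simp)
  rw [hm, h0, mul_zero, abs_zero, mul_zero] at hr
  exact absurd hr (not_le.2 (Real.exp_pos _))

end Pool.Agent.K6.H9.SV
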