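import Mathlib
import Pool.Agent.K6.H9.SV.Pos
import Pool.Agent.K6.H9.SV.Cells

/-! # The number of small points in a linear subspace -/

namespace Pool.Agent.K6.H9.SV

open Filter Topology Matrix H715R2
open Pool.Agent.W777.FV Pool.Agent.N759.UC Finset

/-- the bound for `NoInd T (e + 1)` -/
def Bd (d m e l : ℕ) (V ν Λ : ℝ) : Prop :=
  ∃ C : ℝ, 0 < C ∧ ∀ g : Matrix (Fin d) (Fin d) ℝ, |g.det| = V → HasNu g ν →
    ∀ X : ℝ, 1 ≤ X → ∀ T : Finset (Fin d → ℤ), (∀ p ∈ T, Sm g Λ p) → NoInd T e →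
    (∀ p ∈ T, ∀ q ∈ T, ∀ i, |pos g p i - pos g q i| ≤ X) →
    (T.card : ℝ) ≤ C * X ^ m * (1 + Real.log X) ^ l

/-- points on one line -/
theorem Bd_two {d : ℕ} (hd : 0 < d) (m : ℕ) {V ν Λ : ℝ} (hV : 0 < V) (hν : 0 < ν) :
    Bd d m 2 0 V ν Λ := by
  classical
  obtain ⟨C₁, hC₁⟩ := near_card (Λ := Λ) hd hV hν 0
  refine ⟨C₁ + 1, by positivity, fun g hgV hnu X hX T hT hTI _ => ?_⟩
  have h1 : T.card ≤ C₁ := by
    refine hC₁ g hgV hnu T hT fun p hp q hq i => ?_
    have h2 := hTI ![p, q] (fun k => by fin_cases k <;> simp [hp, hq])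
    have h3 : (fun k => iR ((![p, q] : Fin 2 → Fin d → ℤ) k)) = ![iR p, iR q] := by
      funext k
      fin_cases k <;> rfl
    rw [h3, LinearIndependent.pair_iff] at h2
    push Not at h2
    obtain ⟨a, b, hab, h4⟩ := h2
    have hq0 : iR q ≠ 0 := by
      intro h0
      apply (hT q hq).1
      funext i
      have h5 := congrFun h0 i
      simp only [iR, Pi.zero_apply] at h5
      exact_mod_cast h5
    have ha : a ≠ 0 := by
      intro ha
      have hb := h4 ha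
      rw [ha, zero_smul, zero_add] at hab
      rcases smul_eq_zero.1 hab with h6 | h6
      · exact hb h6
      · exact hq0 h6
    have hs : iR p = (-(b / a)) • iR q := by
      have h5 : a • iR p = a • ((-(b / a)) • iR q) := by
        rw [smul_smul]
        have h6 : a * -(b / a) = -b := by field_simp
        rw [h6, neg_smul]
        exact eq_neg_of_add_eq_zero_left hab
      exact smul_right_injective _ ha h5
    rw [pos_eq hd hν hnu (hT p hp) (hT q hq) hs, sub_self, abs_zero]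
  have h2 : (T.card : ℝ) ≤ C₁ := by exact_mod_cast h1
  have h3 : (1 : ℝ) ≤ X ^ m := one_le_pow₀ hX
  rw [pow_zero, mul_one]
  nlinarith [Nat.cast_nonneg (α := ℝ) C₁]

/-- the dyadic levels -/
lemma exists_kmax (C : ℝ) (hC : 1 ≤ C) : ∃ D : ℝ, 0 ≤ D ∧ ∀ X : ℝ, 1 ≤ X → ∃ kmax : ℕ,
    C * X ≤ (2 : ℝ) ^ kmax ∧ (kmax : ℝ) + 1 ≤ D * (1 + Real.log X) ∧
    ∀ k : ℕ, k ≤ kmax → (2 : ℝ) ^ k ≤ 2 * C * X := by
  have hl2 : 0 < Real.log 2 := Real.log_pos (by norm_num)
  have hlC : 0 ≤ Real.log C := Real.log_nonneg hC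
  refine ⟨(Real.log C + 1) / Real.log 2 + 2, by positivity, fun X hX => ?_⟩
  have hX0 : 0 < X := by linarith
  have hlX : 0 ≤ Real.log X := Real.log_nonneg hX
  have hC₆X1 : 1 ≤ C * X := one_le_mul_of_one_le_of_one_le hC hX
  have hC₆X0 : 0 < C * X := by linarith
  have h1 : ((⌈Real.log (C * X) / Real.log 2⌉₊ : ℕ) : ℝ) < Real.log (C * X) / Real.log 2 + 1 :=
    Nat.ceil_lt_add_one (div_nonneg (Real.log_nonneg hC₆X1) hl2.le)
  refine ⟨⌈Real.log (C * X) / Real.log 2⌉₊, ?_, ?_, ?_⟩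
  · have h1 : Real.log (C * X) / Real.log 2 ≤ (⌈Real.log (C * X) / Real.log 2⌉₊ : ℕ) :=
      Nat.le_ceil _
    rw [div_le_iff₀ hl2] at h1
    rw [← Real.log_le_log_iff hC₆X0 (by positivity), Real.log_pow]
    exact h1
  · rw [Real.log_mul (by linarith) hX0.ne'] at h1 ⊢
    have h2 : (Real.log C + Real.log X) / Real.log 2 ≤
        (Real.log C + 1) / Real.log 2 * (1 + Real.log X) := by
      rw [div_mul_eq_mul_div]
      refine div_le_div_of_nonneg_right ?_ hl2.le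
      nlinarith [mul_nonneg hlC hlX]
    nlinarith
  · intro k hk
    refine (pow_le_pow_right₀ (by norm_num : (1 : ℝ) ≤ 2) hk).trans ?_
    have h2 : ((⌈Real.log (C * X) / Real.log 2⌉₊ : ℕ) : ℝ) * Real.log 2 ≤
        Real.log (C * X) + Real.log 2 := by
      have h3 := mul_le_mul_of_nonneg_right h1.le hl2.le
      rw [add_mul, div_mul_cancel₀ _ hl2.ne', one_mul] at h3
      exact h3
    rw [← Real.log_le_log_iff (by positivity) (by positivity), Real.log_pow]
    have h4 : Real.log (2 * C * X) = Real.log (C * X) + Real.log 2 := by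
      rw [mul_assoc, Real.log_mul (by norm_num) hC₆X0.ne', add_comm]
    rw [h4]
    exact h2

lemma wd_le (d e : ℕ) {c Z : ℝ} (hc : 0 ≤ c) (hZ : 1 ≤ Z) : Wd d e c Z ≤
    ((d : ℝ) ^ 3 * (2 * (1 + c) + ((e : ℝ) * d + 1) * (2 + c) + Real.log (e.factorial : ℝ))) * Z := by
  have hfac0 : 0 ≤ Real.log (e.factorial : ℝ) := Real.log_natCast_nonneg _
  rw [Wd, mul_assoc]
  refine mul_le_mul_of_nonneg_left ?_ (by positivity)
  unfold Gc
  have h1 : 0 ≤ ((e : ℝ) * d + 1) := by positivity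
  have h2 : Z + c ≤ (1 + c) * Z := by nlinarith
  have h3 : Z + c + 1 ≤ (2 + c) * Z := by nlinarith
  have h4 : Real.log (e.factorial : ℝ) ≤ Real.log (e.factorial : ℝ) * Z :=
    le_mul_of_one_le_right hfac0 hZ
  have h5 := mul_le_mul_of_nonneg_left h3 h1
  nlinarith

lemma log_le_aux {C Z X : ℝ} (hC : 1 ≤ C) (hX : 1 ≤ X) (hZ : 1 ≤ Z) (hZX : Z ≤ 2 * C * X) :
    1 + Real.log Z ≤ (1 + Real.log (2 * C)) * (1 + Real.log X) := by
  have h3 : Real.log Z ≤ Real.log (2 * C * X) := Real.log_le_log (by linarith) hZX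
  rw [Real.log_mul (by linarith) (by linarith)] at h3
  nlinarith [mul_nonneg (Real.log_nonneg (by linarith : 1 ≤ 2 * C)) (Real.log_nonneg hX)]

lemma cell_arith {X Z Q CI C₆ C₈ C₁ L : ℝ} {n m l : ℕ} (hX : 1 ≤ X) (hZ : 1 ≤ Z)
    (hZX : Z ≤ 2 * C₆ * X) (hnm : n ≤ m) (hQ : 0 ≤ Q) (hCI : 0 ≤ CI) (hC₈ : 0 ≤ C₈) (hC₁ : 0 ≤ C₁)
    (hL : 1 ≤ L) (hC₆ : 0 ≤ C₆) :
    (2 * (X / Z + 1)) ^ n * (Q * (CI * Z ^ m * (C₈ * L) ^ l + C₁)) ≤
      Q * ((2 * (1 + 2 * C₆)) ^ m * (CI * C₈ ^ l + C₁)) * X ^ m * L ^ l := by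
  have hZ0 : 0 < Z := by linarith
  have hX0 : 0 < X := by linarith
  set b : ℝ := 2 * (X / Z + 1) with hb
  have hdiv : 0 ≤ X / Z := by positivity
  have hb1 : 1 ≤ b := by linarith
  have hb0 : 0 ≤ b := by linarith
  have h2 : b ^ n ≤ b ^ m := pow_le_pow_right₀ hb1 hnm
  have h3 : b ^ m * Z ^ m ≤ (2 * (1 + 2 * C₆)) ^ m * X ^ m := by
    rw [← mul_pow, ← mul_pow]
    refine pow_le_pow_left₀ (by positivity) ?_ _
    have h4 : b * Z = 2 * (X + Z) := by rw [hb]; field_simp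
    rw [h4]
    nlinarith
  set a : ℝ := (2 * (1 + 2 * C₆)) ^ m * X ^ m with ha
  have h5 : b ^ m ≤ a := le_trans (le_mul_of_one_le_right (by positivity) (one_le_pow₀ hZ)) h3
  have hL1 : 1 ≤ L ^ l := one_le_pow₀ hL
  have hL0 : 0 ≤ L ^ l := by linarith
  have hM : 0 ≤ CI * Z ^ m * (C₈ * L) ^ l + C₁ := by positivity
  calc b ^ n * (Q * (CI * Z ^ m * (C₈ * L) ^ l + C₁))
      ≤ b ^ m * (Q * (CI * Z ^ m * (C₈ * L) ^ l + C₁)) :=
        mul_le_mul_of_nonneg_right h2 (by positivity)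
    _ = Q * ((b ^ m * Z ^ m) * (CI * C₈ ^ l * L ^ l) + b ^ m * C₁) := by
        rw [mul_pow C₈ L l]
        ring
    _ ≤ Q * (a * (CI * C₈ ^ l * L ^ l) + a * (C₁ * L ^ l)) := by
        refine mul_le_mul_of_nonneg_left (add_le_add
          (mul_le_mul_of_nonneg_right h3 (by positivity)) ?_) hQ
        exact mul_le_mul h5 (le_mul_of_one_le_right hC₁ hL1) hC₁ ((pow_nonneg hb0 m).trans h5)
    _ = _ := by rw [ha]; ring

/-- **The induction step.** -/
theorem Bd_step {d : ℕ} (hd : 0 < d) {m e l : ℕ} (he : 1 ≤ e) (hm : Nat.gcd e d ≤ m + 1)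
    {V ν Λ : ℝ} (hV : 0 < V) (hν : 0 < ν) (IH : Bd d m e l V ν Λ) :
    Bd d m (e + 1) (l + 1) V ν Λ := by
  classical
  obtain ⟨CI, hCI, hIH⟩ := IH
  obtain ⟨c₀, hc₀, hlow⟩ := low_int hd e hV hν
  set B₀ : ℝ := |Real.log ν| + |Real.log Λ| with hB₀
  have hB₀0 : 0 ≤ B₀ := by positivity
  have hdR : (1 : ℝ) ≤ d := by exact_mod_cast hd
  have heR : (1 : ℝ) ≤ e := by exact_mod_cast he
  set L₀ : ℝ := Real.log (e.factorial : ℝ) + e * B₀ with hL₀
  have hfac0 : 0 ≤ Real.log (e.factorial : ℝ) := Real.log_natCast_nonneg _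
  have hL₀0 : 0 ≤ L₀ := by positivity
  obtain ⟨k₀, hk₀⟩ : ∃ k₀ : ℕ, 4 * (L₀ + 1) < (2 : ℝ) ^ k₀ :=
    pow_unbounded_of_one_lt _ (by norm_num)
  obtain ⟨C₁, hC₁⟩ := near_card (Λ := Λ) hd hV hν ((2 : ℝ) ^ k₀)
  set η : ℝ := 1 / (4 * e) with hη
  have hη0 : 0 < η := by positivity
  have hη1 : η ≤ 1 := by
    rw [hη, div_le_one (by positivity)]
    linarith
  have heη : (e : ℝ) * η = 1 / 4 := by
    rw [hη]
    field_simp
  set W₁ : ℝ := (d : ℝ) ^ 3 * (2 * (1 + c₀) + ((e : ℝ) * d + 1) * (2 + c₀) +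
    Real.log (e.factorial : ℝ)) with hW₁
  have hW₁0 : 0 ≤ W₁ := by positivity
  set X₂ : ℝ := d * (1 + W₁) with hX₂
  have hX₂0 : 0 < X₂ := by positivity
  set Q : ℝ := (2 * (X₂ / η + 1)) ^ d with hQ
  have hQ0 : 0 ≤ Q := by positivity
  set C₆ : ℝ := L₀ + e with hC₆
  have hC₆1 : 1 ≤ C₆ := by linarith
  set C₈ : ℝ := 1 + Real.log (2 * C₆) with hC₈
  have hlC₆ : 0 ≤ Real.log (2 * C₆) := Real.log_nonneg (by linarith)
  have hC₈1 : 1 ≤ C₈ := by linarith
  have hC₈0 : 0 ≤ C₈ := by linarith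
  set C₉ : ℝ := (2 * (1 + 2 * C₆)) ^ m * (CI * C₈ ^ l + C₁) with hC₉
  have hC₆0 : 0 ≤ C₆ := by linarith
  have hC₉0 : 0 ≤ C₉ := by positivity
  obtain ⟨C₁₀, hC₁₀0, hkm⟩ := exists_kmax C₆ hC₆1
  refine ⟨CI + C₁₀ * (Q * C₉), by positivity, fun g hgV hnu X hX T hT hTI hTX => ?_⟩
  have hX0 : 0 < X := by linarith
  have hlX : 0 ≤ Real.log X := Real.log_nonneg hX
  have hlX1 : 1 ≤ 1 + Real.log X := by linarith
  by_cases hcase : NoInd T e
  · have h1 := hIH g hgV hnu X hX T hT hcase hTX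
    refine h1.trans ?_
    have h2 : CI * X ^ m * (1 + Real.log X) ^ l ≤ CI * X ^ m * (1 + Real.log X) ^ (l + 1) :=
      mul_le_mul_of_nonneg_left (pow_le_pow_right₀ hlX1 (Nat.le_succ l)) (by positivity)
    refine h2.trans ?_
    have h4 : 0 ≤ C₁₀ * (Q * C₉) := by positivity
    rw [mul_assoc, mul_assoc]
    exact mul_le_mul_of_nonneg_right (by linarith) (by positivity)
  -- a minimal independent family
  unfold NoInd at hcase
  push Not at hcase
  obtain ⟨P₁, hP₁T, hP₁⟩ := hcase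
  set PP : Finset (Fin e → Fin d → ℤ) := (Fintype.piFinset fun _ : Fin e => T).filter
    fun P => LinearIndependent ℝ (fun k => iR (P k)) with hPP
  have hPPmem : ∀ P, P ∈ PP ↔ (∀ k, P k ∈ T) ∧ LinearIndependent ℝ (fun k => iR (P k)) := by
    intro P
    rw [hPP, mem_filter, Fintype.mem_piFinset]
  obtain ⟨P₀, hP₀, hP₀min⟩ := exists_min_image PP (fun P => ∑ r, |mnr (ym g P) r|)
    ⟨P₁, (hPPmem P₁).2 ⟨hP₁T, hP₁⟩⟩
  obtain ⟨hP₀T, hP₀I⟩ := (hPPmem P₀).1 hP₀
  set Y := ym g P₀ with hY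
  have hYlow : Low Y c₀ := hlow g hgV hnu P₀ hP₀I
  have hYpos : 0 < ∑ r, |mnr Y r| := by
    obtain ⟨r, hr⟩ := hYlow 0 (by simp)
    have h1 : 0 < |mnr Y r| := by
      have h2 := (Real.exp_pos (-c₀)).trans_le hr
      exact (mul_pos_iff_of_pos_left (Real.exp_pos _)).1 h2
    exact h1.trans_le (single_le_sum (f := fun r => |mnr Y r|) (fun _ _ => abs_nonneg _)
      (mem_univ r))
  have hmin : ∀ P ∈ PP, ∀ r, |mnr Y r| ≤ |mnr (ym g P) r| := by
    intro P hP r
    obtain ⟨hPT, hPI⟩ := (hPPmem P).1 hP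
    obtain ⟨α, -, hα⟩ := prop_minors hd hTI hP₀I hP₀T hPT (hlow g hgV hnu P hPI)
    have h1 := hP₀min P hP
    have h2 : ∑ r, |mnr (ym g P) r| = (∑ r, |mnr Y r|) * |α| := by
      rw [sum_mul]
      exact sum_congr rfl fun r _ => by rw [hα, abs_mul]
    rw [h2] at h1
    have h3 : 1 ≤ |α| := by
      by_contra hcon
      have h4 := mul_lt_mul_of_pos_left (not_le.1 hcon) hYpos
      rw [mul_one] at h4
      exact absurd h1 (not_le.2 h4)
    rw [hα, abs_mul]
    exact le_mul_of_one_le_right (abs_nonneg _) h3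
  -- the levels
  have hLe : ∀ q ∈ T, Le Y (pos g q) (C₆ * X) := by
    intro q hq r
    refine (le_of_near hν hnu hd P₀ (fun k => hT _ (hP₀T k)) (pos g q) X
      (fun k i => hTX _ (hP₀T k) q hq i) r).trans (Real.exp_le_exp.2 ?_)
    rw [← hB₀, mul_add, add_left_comm, ← hL₀, hC₆, add_mul, add_comm]
    exact add_le_add_left (le_mul_of_one_le_right hL₀0 hX) _
  obtain ⟨kmax, hkmax1, hkmax2, hkmax3⟩ := hkm X hX
  have hex : ∀ q ∈ T, ∃ k : ℕ, k ≤ kmax ∧ Le Y (pos g q) ((2 : ℝ) ^ k) ∧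
      ∀ j : ℕ, j < k → ¬ Le Y (pos g q) ((2 : ℝ) ^ j) := by
    intro q hq
    have h0 : ∃ k : ℕ, Le Y (pos g q) ((2 : ℝ) ^ k) :=
      ⟨kmax, fun r => (hLe q hq r).trans (Real.exp_le_exp.2 hkmax1)⟩
    refine ⟨Nat.find h0, ?_, Nat.find_spec h0, fun j hj => Nat.find_min h0 hj⟩
    exact Nat.find_min' h0 fun r => (hLe q hq r).trans (Real.exp_le_exp.2 hkmax1)
  choose! lev hlev1 hlev2 hlev3 using hex
  have hlevel : ∀ k ∈ range (kmax + 1), (((T.filter fun q => lev q = k).card : ℕ) : ℝ) ≤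
      Q * C₉ * X ^ m * (1 + Real.log X) ^ l := by
    intro k hk
    have hkk : k ≤ kmax := Nat.lt_succ_iff.1 (mem_range.1 hk)
    set Z : ℝ := (2 : ℝ) ^ k with hZ
    have hZ1 : 1 ≤ Z := one_le_pow₀ (by norm_num)
    have hZ0 : 0 < Z := by linarith
    have hZX : Z ≤ 2 * C₆ * X := hkmax3 k hkk
    set Tk := T.filter fun q => lev q = k with hTk
    have hTkT : Tk ⊆ T := filter_subset _ _
    have hTkLe : ∀ q ∈ Tk, Le Y (pos g q) Z := by
      intro q hq
      obtain ⟨h1, h2⟩ := mem_filter.1 hq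
      have h3 := hlev2 q h1
      rw [h2] at h3
      exact h3
    obtain ⟨I, hI, hIst⟩ := struct hd (by linarith : 0 ≤ Z + c₀) hYlow (Tk.image (pos g))
      (fun u hu => by
        obtain ⟨q, hq, rfl⟩ := mem_image.1 hu
        exact sum_pos hν hnu hd (hT q (hTkT hq)))
      (fun u hu => by
        obtain ⟨q, hq, rfl⟩ := mem_image.1 hu
        exact hTkLe q hq)
    have hIm : I.card ≤ m := by omega
    have hWd : Wd d e c₀ Z ≤ W₁ * Z := wd_le d e hc₀ hZ1
    -- the count in a subcell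
    have hsub : ∀ T'' ⊆ Tk, (∀ p ∈ T'', ∀ q ∈ T'', ∀ i ∈ (univ : Finset (Fin d)),
        |pos g p i - pos g q i| ≤ η * Z) → (T''.card : ℝ) ≤ CI * Z ^ m * (C₈ * (1 + Real.log X)) ^ l +
          C₁ := by
      intro T'' hT'' hη''
      have hA0 : 0 ≤ CI * Z ^ m * (C₈ * (1 + Real.log X)) ^ l := by positivity
      by_cases hkk₀ : k < k₀
      · have h1 : T''.card ≤ C₁ := by
          refine hC₁ g hgV hnu T'' (fun p hp => hT p (hTkT (hT'' hp))) fun p hp q hq i => ?_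
          refine (hη'' p hp q hq i (mem_univ _)).trans ?_
          have h2 : Z ≤ (2 : ℝ) ^ k₀ := pow_le_pow_right₀ (by norm_num) hkk₀.le
          exact (mul_le_of_le_one_left hZ0.le hη1).trans h2
        have h2 : (T''.card : ℝ) ≤ C₁ := by exact_mod_cast h1
        linarith
      · have hZk₀ : (2 : ℝ) ^ k₀ ≤ Z := pow_le_pow_right₀ (by norm_num) (not_lt.1 hkk₀)
        have hno : NoInd T'' e := by
          intro P' hP' hI'
          have hP'PP : P' ∈ PP := (hPPmem P').2 ⟨fun k => hTkT (hT'' (hP' k)), hI'⟩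
          set q := P' ⟨0, he⟩ with hq
          have hqT'' : q ∈ T'' := hP' _
          have hqT : q ∈ T := hTkT (hT'' hqT'')
          have hlq : lev q = k := (mem_filter.1 (hT'' hqT'')).2
          have hk1 : 1 ≤ k := by
            rcases Nat.eq_zero_or_pos k with h0 | h0
            · exfalso
              rw [hZ, h0, pow_zero] at hZk₀
              linarith
            · exact h0
          refine hlev3 q hqT (k - 1) (by omega) ?_
          have h1 := le_of_near hν hnu hd P' (fun k => hT _ (hTkT (hT'' (hP' k)))) (pos g q)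
            (η * Z) (fun k i => hη'' _ (hP' k) q hqT'' i (mem_univ _))
          intro r
          refine (mul_le_mul_of_nonneg_left (hmin P' hP'PP r) (Real.exp_pos _).le).trans
            ((h1 r).trans (Real.exp_le_exp.2 ?_))
          have h2 : (2 : ℝ) ^ (k - 1) = Z / 2 := by
            have h3 : Z = (2 : ℝ) ^ (k - 1) * 2 := by
              rw [hZ, ← pow_succ]
              congr 1
              omega
            rw [h3]
            ring
          have h4 : (e : ℝ) * (η * Z + (|Real.log ν| + |Real.log Λ|)) = Z / 4 + e * B₀ := by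
            rw [← hB₀, mul_add, ← mul_assoc, heη]
            ring
          rw [h2, h4]
          linarith
        have h1 := hIH g hgV hnu Z hZ1 T'' (fun p hp => hT p (hTkT (hT'' hp))) hno
          (fun p hp q hq i => (hη'' p hp q hq i (mem_univ _)).trans
            (mul_le_of_le_one_left hZ0.le hη1))
        have h2 : 1 + Real.log Z ≤ C₈ * (1 + Real.log X) := log_le_aux hC₆1 hX hZ1 hZX
        have h3 : (1 + Real.log Z) ^ l ≤ (C₈ * (1 + Real.log X)) ^ l :=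
          pow_le_pow_left₀ (by linarith [Real.log_nonneg hZ1]) h2 _
        have h4 := mul_le_mul_of_nonneg_left h3 (by positivity : 0 ≤ CI * Z ^ m)
        have h5 : (0 : ℝ) ≤ C₁ := Nat.cast_nonneg _
        linarith
    set M'' : ℝ := CI * Z ^ m * (C₈ * (1 + Real.log X)) ^ l + C₁ with hM''
    have hM''0 : 0 ≤ M'' := by positivity
    have hcell : ∀ T' ⊆ Tk, (∀ p ∈ T', ∀ q ∈ T', ∀ i ∈ I, |pos g p i - pos g q i| ≤ Z) →
        (T'.card : ℝ) ≤ Q * M'' := by
      intro T' hT' hZ'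
      have h1 := card_cells T' (pos g) univ (X₂ * Z) (η * Z) M'' (by positivity) (by positivity)
        hM''0 (fun p hp q hq i _ => by
          have h2 := hIst (pos g p) (mem_image_of_mem _ (hT' hp)) (pos g q)
            (mem_image_of_mem _ (hT' hq)) Z hZ0.le (fun i hi => hZ' p hp q hq i hi) i
          refine h2.trans ?_
          rw [hX₂, mul_assoc]
          refine mul_le_mul_of_nonneg_left ?_ (by linarith)
          linarith) (fun T'' hT'' h => hsub T'' (hT''.trans hT') h)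
      rw [card_univ, Fintype.card_fin, mul_div_mul_right _ _ hZ0.ne'] at h1
      exact h1
    have h1 := card_cells Tk (pos g) I X Z (Q * M'') hX0.le hZ0 (by positivity)
      (fun p hp q hq i _ => hTX p (hTkT hp) q (hTkT hq) i) hcell
    refine h1.trans ?_
    exact cell_arith hX hZ1 hZX hIm hQ0 hCI.le hC₈0 (Nat.cast_nonneg _) hlX1 hC₆0
  have hsum : (T.card : ℝ) = ∑ k ∈ range (kmax + 1),
      ((T.filter fun q => lev q = k).card : ℝ) := by
    rw [← Nat.cast_sum]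
    congr 1
    exact card_eq_sum_card_fiberwise fun q hq => mem_coe.2 (mem_range.2
      (Nat.lt_succ_iff.2 (hlev1 q hq)))
  have hfin : (T.card : ℝ) ≤ C₁₀ * (Q * C₉) * X ^ m * (1 + Real.log X) ^ (l + 1) := by
    calc (T.card : ℝ) = _ := hsum
      _ ≤ ∑ _k ∈ range (kmax + 1), Q * C₉ * X ^ m * (1 + Real.log X) ^ l := sum_le_sum hlevel
      _ = ((kmax : ℝ) + 1) * (Q * C₉ * X ^ m * (1 + Real.log X) ^ l) := by
          rw [sum_const, card_range, nsmul_eq_mul]
          push_cast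
          ring
      _ ≤ (C₁₀ * (1 + Real.log X)) * (Q * C₉ * X ^ m * (1 + Real.log X) ^ l) :=
          mul_le_mul_of_nonneg_right hkmax2 (by positivity)
      _ = _ := by rw [pow_succ]; ring
  refine hfin.trans ?_
  rw [mul_assoc, mul_assoc (CI + C₁₀ * (Q * C₉))]
  exact mul_le_mul_of_nonneg_right (by linarith) (by positivity)

end Pool.Agent.K6.H9.SV
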