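import Mathlib
import Pool.Agent.K6.H9.SV.Sub

/-! # The number of small points of a parallelepiped in a linear subspace -/

namespace Pool.Agent.K6.H9.SV

open Filter Topology Matrix H715R2
open Pool.Agent.W777.FV Pool.Agent.N759.UC Finset

theorem Bd_all {d : ℕ} (hd : 0 < d) {V ν Λ : ℝ} (hV : 0 < V) (hν : 0 < ν) (m : ℕ) (e : ℕ)
    (hm : ∀ j, 1 ≤ j → j ≤ e + 1 → Nat.gcd j d ≤ m + 1) : Bd d m (e + 2) e V ν Λ := by
  induction e with
  | zero => exact Bd_two hd m hV hν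
  | succ e ih =>
    exact Bd_step hd (by omega) (hm _ (by omega) le_rfl) hV hν
      (ih fun j h1 h2 => hm j h1 (by omega))

/-- **Small points in a linear subspace.** -/
theorem subspace_count {d : ℕ} (hd : 0 < d) (e m : ℕ) (he : 1 ≤ e)
    (hm : ∀ j, j ∣ d → j ≤ e → j ≤ m) {V ν Λ : ℝ} (hV : 0 < V) (hν : 0 < ν) :
    ∃ C : ℝ, 0 < C ∧ ∀ g : Matrix (Fin d) (Fin d) ℝ, |g.det| = V → HasNu g ν →
      ∀ x : ℝ, 1 ≤ x → ∀ a : Fin d → ℝ, (∀ i, 0 < a i) → ∏ i, a i = 1 →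
      ∀ U : Submodule ℝ (Fin d → ℝ), Module.finrank ℝ U ≤ e →
      ∀ S : Finset (Fin d → ℤ), (∀ p ∈ S, p ≠ 0 ∧ |FF g (iR p)| ≤ Λ ∧
        ∀ i, |a i * (g *ᵥ iR p) i| ≤ Real.exp x) → (∀ p ∈ S, iR p ∈ U) →
      (S.card : ℝ) ≤ C * x ^ (m - 1) * (1 + Real.log x) ^ (e - 1) := by
  classical
  have hm1 : 1 ≤ m := hm 1 (one_dvd _) he
  obtain ⟨e, rfl⟩ : ∃ e', e = e' + 1 := ⟨e - 1, by omega⟩
  obtain ⟨m, rfl⟩ : ∃ m', m = m' + 1 := ⟨m - 1, by omega⟩
  simp only [Nat.add_sub_cancel]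
  obtain ⟨C, hC, H⟩ := Bd_all (Λ := Λ) hd hV hν m e fun j h1 h2 =>
    hm _ (Nat.gcd_dvd_right _ _) ((Nat.gcd_le_left _ h1).trans h2)
  set B₀ : ℝ := |Real.log ν| + |Real.log Λ| with hB₀
  have hB₀0 : 0 ≤ B₀ := by positivity
  have hdR : (1 : ℝ) ≤ d := by exact_mod_cast hd
  set C₀ : ℝ := 2 * (d * (1 + B₀)) with hC₀
  have hC₀1 : 1 ≤ C₀ := by
    have : 1 ≤ (d : ℝ) * (1 + B₀) := one_le_mul_of_one_le_of_one_le hdR (by linarith)
    linarith
  have hC₀0 : 0 < C₀ := by linarith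
  have hlC₀ : 0 ≤ Real.log C₀ := Real.log_nonneg hC₀1
  refine ⟨C * C₀ ^ m * (1 + Real.log C₀) ^ e, by positivity,
    fun g hgV hnu x hx a ha0 ha1 U hU S hS hSU => ?_⟩
  have hx0 : 0 < x := by linarith
  have hlx : 0 ≤ Real.log x := Real.log_nonneg hx
  set g' := diagonal a * g with hg'
  have hg'V : |g'.det| = V := by
    rw [hg', det_mul, det_diagonal, ha1, one_mul]
    exact hgV
  have hg'nu : HasNu g' ν := fun q hq => by
    rw [hg', FF_diag_mul, ha1, one_mul]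
    exact hnu q hq
  have hSm : ∀ p ∈ S, Sm g' Λ p := by
    intro p hp
    refine ⟨(hS p hp).1, ?_⟩
    rw [hg', FF_diag_mul, ha1, one_mul]
    exact (hS p hp).2.1
  have hup : ∀ p ∈ S, ∀ i, pos g' p i ≤ x + B₀ := by
    intro p hp i
    have h1 : |(g' *ᵥ iR p) i| ≤ Real.exp x := by
      rw [hg', ← mulVec_mulVec, mulVec_diagonal]
      exact (hS p hp).2.2 i
    rw [abs_y hν hg'nu p (hSm p hp) i, Real.exp_le_exp] at h1
    have h2 := (abs_le.1 (log_F_le hν hg'nu hd (hSm p hp))).1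
    linarith
  have hlow : ∀ p ∈ S, ∀ i, -(d * (x + B₀)) ≤ pos g' p i := by
    intro p hp i
    have h1 := sum_pos hν hg'nu hd (hSm p hp)
    rw [← add_sum_erase univ _ (mem_univ i)] at h1
    have h2 : ∑ j ∈ univ.erase i, pos g' p j ≤ ∑ _j ∈ univ.erase i, (x + B₀) :=
      sum_le_sum fun j _ => hup p hp j
    rw [sum_const, card_erase_of_mem (mem_univ i), card_univ, Fintype.card_fin,
      nsmul_eq_mul] at h2
    have h3 : ((d - 1 : ℕ) : ℝ) * (x + B₀) ≤ d * (x + B₀) := by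
      refine mul_le_mul_of_nonneg_right ?_ (by linarith)
      exact_mod_cast Nat.sub_le _ _
    linarith
  have hdiff : ∀ p ∈ S, ∀ q ∈ S, ∀ i, |pos g' p i - pos g' q i| ≤ C₀ * x := by
    intro p hp q hq i
    have h1 := hup p hp i
    have h2 := hup q hq i
    have h3 := hlow p hp i
    have h4 := hlow q hq i
    have h5 : x + B₀ ≤ d * (x + B₀) := le_mul_of_one_le_left (by linarith) hdR
    have h6 : d * (x + B₀) ≤ d * (1 + B₀) * x := by
      rw [mul_assoc]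
      refine mul_le_mul_of_nonneg_left ?_ (by linarith)
      nlinarith
    rw [abs_le, hC₀]
    constructor <;> linarith
  have hNo : NoInd S (e + 2) := by
    intro P hP hI
    have h1 : LinearIndependent ℝ (fun k : Fin (e + 2) => (⟨iR (P k), hSU _ (hP k)⟩ : U)) := by
      refine LinearIndependent.of_comp U.subtype ?_
      exact hI
    have h2 := h1.fintype_card_le_finrank
    rw [Fintype.card_fin] at h2
    omega
  have h1 := H g' hg'V hg'nu (C₀ * x) (one_le_mul_of_one_le_of_one_le hC₀1 hx) S hSm hNo hdiff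
  refine h1.trans ?_
  rw [mul_pow, Real.log_mul hC₀0.ne' hx0.ne']
  have h2 : 1 + (Real.log C₀ + Real.log x) ≤ (1 + Real.log C₀) * (1 + Real.log x) := by
    nlinarith [mul_nonneg hlC₀ hlx]
  have h3 : (1 + (Real.log C₀ + Real.log x)) ^ e ≤
      ((1 + Real.log C₀) * (1 + Real.log x)) ^ e := pow_le_pow_left₀ (by positivity) h2 _
  calc C * (C₀ ^ m * x ^ m) * (1 + (Real.log C₀ + Real.log x)) ^ e ≤
      C * (C₀ ^ m * x ^ m) * ((1 + Real.log C₀) * (1 + Real.log x)) ^ e :=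
        mul_le_mul_of_nonneg_left h3 (by positivity)
    _ = _ := by
        rw [mul_pow (1 + Real.log C₀) (1 + Real.log x) e]
        ring

end Pool.Agent.K6.H9.SV
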