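import Mathlib
import Pool.Agent.K6.H9.SV.Main

/-! # MP_edeaa2_an: the small values modulo the elements of a field

Let `d ≥ 2`, `e ≥ 1` and `δ, ν > 0`. We consider all products `F` of `d` real linear forms `l_i` in `d`
variables with absolute determinant `δ` and `|F| ≥ ν` at the nonzero integer points, and the nonzero
integer points `p` with `|F(p)| ≤ Λ` in the parallelepipeds `|a_i l_i(p)| ≤ exp x` (`a` positive of
product one, `x ≥ 1`). All constants are the same for all these forms and parallelepipeds.

(A) Let `P` be a real form of degree `t` and `W` a rational subspace of `ℝ`. If the coefficients of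
`P` span modulo `W` a rational space of dimension greater than `binom (t + d - 1) t - binom (t + e) e`,
then `P(p) ∈ W` for at most `C x ^ (e - 1)` of these points, where `C` depends on `d, e, t, δ, ν, Λ`
only. So a form `F` which satisfies only few linear relations with rational coefficients modulo `W`
takes few small values in `W`; for `e = 1` (less than `t + 1` relations) their number is bounded by a
constant. For `e = d - 1` the hypothesis says that not all coefficients of `P` lie in `W`.

(B) Let `e ≤ d` and let `T` be such that every product of `d` real linear forms with absolute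
determinant `δ` takes a value of absolute value `< T` at some nonzero integer point (for example
`d! δ < d ^ d T`, by Minkowski). Let `K` be a subfield of `ℝ`. If the coefficients of `F` span over
`K` a space of dimension greater than `binom (2 d - 1) d + 1 - binom (d + e) e`, then every
parallelepiped with `x ≥ x₀` contains at least `c x ^ (d - e)` nonzero integer points with `|F(p)| < T`
no two of which have values with a quotient in `K`. The constants `c` and `x₀` do not depend on `K`.
For `e = d - 1` the hypothesis says that `F` is not proportional to a form with coefficients in `K`,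
and the exponent is `1`; for `e = 1` it says that there are less than `d` relations over `K`
between the `binom (2 d - 1) d` coefficients, and the exponent is `d - 1`, which is the largest
possible: a parallelepiped contains at most `C x ^ (d - 1)` nonzero integer points with `|F(p)| < T`.

The proof. A set of more than `C x ^ (e - 1)` of the points has in degree `t` a Hilbert function of
at least `binom (t + e) e`. So as many of the vectors of the monomials of degree `t` at these points
are independent, and they give as many independent relations between the coefficients of `P` modulo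
`W` if the values lie in `W`. -/

set_option autoImplicit false

namespace Pool.Agent.K6.H9.SV.ValueClasses

open Pool.Agent.K6.H9.SV

/-- the product of the linear forms given by the rows of `g`, at an integer point -/
noncomputable def F {d : ℕ} (g : Matrix (Fin d) (Fin d) ℝ) (p : Fin d → ℤ) : ℝ :=
  ∏ i : Fin d, ∑ j : Fin d, g i j * (p j : ℝ)

/-- the product of the linear forms given by the rows of `g`, as a polynomial -/
noncomputable def polyF {d : ℕ} (g : Matrix (Fin d) (Fin d) ℝ) : MvPolynomial (Fin d) ℝ :=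
  ∏ i : Fin d, ∑ j : Fin d, MvPolynomial.C (g i j) * MvPolynomial.X j

/-- the matrices with absolute determinant `δ` and form at least `ν` in absolute value at the nonzero
integer points -/
def System (d : ℕ) (δ ν : ℝ) : Set (Matrix (Fin d) (Fin d) ℝ) :=
  {g | |g.det| = δ ∧ ∀ p : Fin d → ℤ, p ≠ 0 → ν ≤ |F g p|}

/-- `a` is positive of product one -/
def Position {d : ℕ} (a : Fin d → ℝ) : Prop := (∀ i, 0 < a i) ∧ ∏ i, a i = 1

/-- a finite set of nonzero integer points `p` with `|F(p)| ≤ Λ` and `|a_i l_i(p)| ≤ exp x` for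
all `i` -/
def SmallPoints {d : ℕ} (g : Matrix (Fin d) (Fin d) ℝ) (Λ : ℝ) (a : Fin d → ℝ) (x : ℝ)
    (S : Finset (Fin d → ℤ)) : Prop :=
  ∀ p ∈ S, p ≠ 0 ∧ |F g p| ≤ Λ ∧ ∀ i, |a i * ∑ j, g i j * (p j : ℝ)| ≤ Real.exp x

/-- the dimension of the rational space spanned by the coefficients of `P` modulo `W` -/
noncomputable def rankMod {d : ℕ} (W : Submodule ℚ ℝ) (P : MvPolynomial (Fin d) ℝ) : ℕ :=
  Module.finrank ℚ (Submodule.span ℚ
    (Set.range fun m : Fin d →₀ ℕ => W.mkQ (MvPolynomial.coeff m P)))

/-- the dimension of the space spanned by the coefficients of `P` over the field `K` -/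
noncomputable def rankOver {d : ℕ} (K : Subfield ℝ) (P : MvPolynomial (Fin d) ℝ) : ℕ :=
  Module.finrank K (Submodule.span K (Set.range fun m : Fin d →₀ ℕ => MvPolynomial.coeff m P))

/-- every product of `d` linear forms with absolute determinant `δ` takes a value less than `T` in
absolute value at a nonzero integer point; by Minkowski's theorem this is the case if `T` is
larger than `δ d! / d ^ d` -/
def Admissible (d : ℕ) (δ T : ℝ) : Prop :=
  (d.factorial : ℝ) * δ < (d : ℝ) ^ d * T ∨
    ∀ h : Matrix (Fin d) (Fin d) ℝ, |h.det| = δ → ∃ p : Fin d → ℤ, p ≠ 0 ∧ |F h p| < T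

lemma polyF_homogeneous {d : ℕ} (g : Matrix (Fin d) (Fin d) ℝ) : (polyF g).IsHomogeneous d := by
  have h1 := MvPolynomial.IsHomogeneous.prod Finset.univ
    (fun i => (∑ j, MvPolynomial.C (g i j) * MvPolynomial.X j : MvPolynomial (Fin d) ℝ))
    (fun _ => 1) fun i _ =>
      MvPolynomial.IsHomogeneous.sum _ _ _ fun j _ => MvPolynomial.isHomogeneous_C_mul_X _ _
  unfold polyF
  simpa using h1

lemma polyF_eval {d : ℕ} (g : Matrix (Fin d) (Fin d) ℝ) (p : Fin d → ℤ) :
    MvPolynomial.eval (fun i => (p i : ℝ)) (polyF g) = F g p := by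
  simp [polyF, F]

theorem valueClasses (d e : ℕ) (hd : 2 ≤ d) (he : 1 ≤ e) (δ ν : ℝ) (hδ : 0 < δ) (hν : 0 < ν) :
    -- (A)
    (∀ (t : ℕ) (Λ : ℝ), ∃ C : ℝ, 0 < C ∧ ∀ g ∈ System d δ ν,
      ∀ P : MvPolynomial (Fin d) ℝ, P.IsHomogeneous t → ∀ W : Submodule ℚ ℝ,
      (t + d - 1).choose t < rankMod W P + (t + e).choose e →
      ∀ x : ℝ, 1 ≤ x → ∀ a : Fin d → ℝ, Position a →
      ∀ S : Finset (Fin d → ℤ), SmallPoints g Λ a x S →
      (∀ p ∈ S, MvPolynomial.eval (fun i => (p i : ℝ)) P ∈ W) →
      (S.card : ℝ) ≤ C * x ^ (e - 1)) ∧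
    -- (B)
    (e ≤ d → ∀ T : ℝ, Admissible d δ T → ∃ c : ℝ, 0 < c ∧ ∃ x₀ : ℝ, ∀ g ∈ System d δ ν,
      ∀ K : Subfield ℝ, (2 * d - 1).choose d + 1 < rankOver K (polyF g) + (d + e).choose e →
      ∀ x : ℝ, x₀ ≤ x → ∀ a : Fin d → ℝ, Position a →
      ∃ S : Finset (Fin d → ℤ), SmallPoints g T a x S ∧ (∀ p ∈ S, |F g p| < T) ∧
        c * x ^ (d - e) ≤ (S.card : ℝ) ∧
        ∀ p ∈ S, ∀ q ∈ S, p ≠ q → F g p / F g q ∉ K) := by
  have hd0 : 0 < d := by omega
  refine ⟨fun t Λ => ?_, fun hed T hT => ?_⟩
  · obtain ⟨C, hC, H⟩ := hilb_growth (Λ := Λ) e hd0 t hδ hν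
    refine ⟨C, hC, fun g hg P hP W hrank x hx a ha S hS hPW => ?_⟩
    by_contra hcard
    have h1 := H g hg.1 hg.2 x hx a ha.1 ha.2 S hS (not_le.1 hcard)
    have h2 := rank_coeffs ℚ S P hP W hPW
    have h3 : d + t - 1 = t + d - 1 := by omega
    rw [h3] at h2
    unfold rankMod at hrank
    omega
  · obtain ⟨r, rfl⟩ : ∃ r, d = r + 1 := ⟨d - 1, by omega⟩
    have hT' : ∀ h : Matrix (Fin (r + 1)) (Fin (r + 1)) ℝ, |h.det| = δ →
        ∃ m : Fin (r + 1) → ℤ, m ≠ 0 ∧ |H715R2.FF h (H715R2.iR m)| < T := by
      rcases hT with hT | hT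
      · exact fun h hh => H715R2.mink_prod hd0 δ T hδ hT h hh
      · exact hT
    obtain ⟨c, hc, x₀, H⟩ := many_classes he hed hδ hν hT'
    refine ⟨c, hc, x₀, fun g hg K hrank x hx a ha => ?_⟩
    obtain ⟨S, hS1, hS2, hS3⟩ := H g hg.1 hg.2 (polyF g) (polyF_homogeneous g)
      (fun p => polyF_eval g p) K (by
        have h4 : r + 1 + (r + 1) - 1 = 2 * (r + 1) - 1 := by omega
        rw [h4]
        exact hrank) x hx a ha.1 ha.2
    refine ⟨S, fun p hp => ⟨(hS2 p hp).1, (hS2 p hp).2.1.le, (hS2 p hp).2.2⟩,
      fun p hp => (hS2 p hp).2.1, hS1, fun p hp q hq hpq hmem => ?_⟩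
    exact hS3 p hp q hq hpq ⟨⟨_, hmem⟩, rfl⟩

end Pool.Agent.K6.H9.SV.ValueClasses
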